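import Mathlib

/-!
# Basic facts for the theorem on finite pieces of crystals

Ranks, generic linear functionals, vertices of polytopes and exposing functionals.
-/

set_option autoImplicit false

open Finset

namespace Pool.Agent.MP_9673d9_co.Crystal

/-- ranks -/
theorem exists_rank {α : Type*} [DecidableEq α] (f : α → ℝ) (T : Finset α) :
    Set.InjOn f T → ∀ r < T.card, ∃ p ∈ T, (T.filter fun t => f t < f p).card = r := by
  induction T using Finset.induction_on_max_value f with
  | empty =>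
    intro _ r hr
    exact absurd hr (Nat.not_lt_zero r)
  | insert a s ha hmax ih =>
    intro hf r hr
    have hlt : ∀ x ∈ s, f x < f a := by
      intro x hx
      refine lt_of_le_of_ne (hmax x hx) fun h => ha ?_
      have := hf (Finset.mem_coe.2 (Finset.mem_insert_of_mem hx))
        (Finset.mem_coe.2 (Finset.mem_insert_self a s)) h
      rwa [← this]
    rw [Finset.card_insert_of_notMem ha] at hr
    rcases Nat.lt_or_ge r s.card with h | h
    · obtain ⟨p, hp, hpr⟩ := ih (hf.mono (by
        intro x hx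
        exact Finset.mem_coe.2 (Finset.mem_insert_of_mem hx))) r h
      refine ⟨p, Finset.mem_insert_of_mem hp, ?_⟩
      rw [Finset.filter_insert, if_neg (not_lt.2 (hmax p hp))]
      exact hpr
    · refine ⟨a, Finset.mem_insert_self a s, ?_⟩
      rw [Finset.filter_insert, if_neg (lt_irrefl _), Finset.filter_true_of_mem hlt]
      omega

theorem card_split {α : Type*} [DecidableEq α] (f : α → ℝ) (T : Finset α) (hf : Set.InjOn f T)
    {p : α} (hp : p ∈ T) :
    T.card = (T.filter fun t => f t < f p).card + ((T.filter fun t => f p < f t).card + 1) := by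
  rw [← Finset.card_filter_add_card_filter_not (s := T) (fun t => f t < f p)]
  congr 1
  have h4 : (T.filter fun t => ¬ f t < f p) = insert p (T.filter fun t => f p < f t) := by
    ext t
    rw [Finset.mem_insert, Finset.mem_filter, Finset.mem_filter]
    constructor
    · rintro ⟨ht, h5⟩
      rcases eq_or_lt_of_le (not_lt.1 h5) with h6 | h6
      · left
        exact (hf ht hp h6.symm)
      · exact Or.inr ⟨ht, h6⟩
    · rintro (rfl | ⟨ht, h5⟩)
      · exact ⟨hp, lt_irrefl _⟩
      · exact ⟨ht, not_lt.2 h5.le⟩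
  rw [h4, Finset.card_insert_of_notMem]
  simp

theorem exists_median {α : Type*} [DecidableEq α] (f : α → ℝ) (S : Finset α) (hf : Set.InjOn f S)
    (m : ℕ) (hm : S.card = 2 * m + 1) :
    ∃ x ∈ S, (S.filter fun y => f y < f x).card = m ∧ (S.filter fun y => f x < f y).card = m := by
  obtain ⟨x, hx, h1⟩ := exists_rank f S hf m (by omega)
  refine ⟨x, hx, h1, ?_⟩
  have h2 := card_split f S hf hx
  omega

section lin

variable {V : Type*} [NormedAddCommGroup V] [NormedSpace ℝ V]

/-- a linear functional injective on a finite set -/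
theorem exists_inj (S : Finset V) : ∃ u : V →ₗ[ℝ] ℝ, Set.InjOn u (S : Set V) := by
  classical
  obtain ⟨u, hu⟩ := Module.exists_dual_forall_apply_ne_zero (K := ℝ)
    (fun p : {p : S × S // p.1 ≠ p.2} => ((p.1.1 : V) - (p.1.2 : V))) (by
      rintro ⟨⟨⟨a, ha⟩, ⟨b, hb⟩⟩, h⟩ h0
      exact h (Subtype.ext (sub_eq_zero.1 h0)))
  refine ⟨u, fun a ha b hb hab => ?_⟩
  by_contra hne
  have h1 := hu ⟨(⟨a, ha⟩, ⟨b, hb⟩), fun h => hne (congrArg Subtype.val h)⟩
  apply h1
  change u (a - b) = 0
  rw [map_sub, hab, sub_self]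

/-- a minimal set of generators of a polytope -/
theorem exists_vertices [DecidableEq V] (W : Finset V) : ∃ E : Finset V, E ⊆ W ∧
    (W : Set V) ⊆ convexHull ℝ (E : Set V) ∧
    ∀ e ∈ E, e ∉ convexHull ℝ ((E.erase e : Finset V) : Set V) := by
  classical
  let 𝓔 : Finset (Finset V) := W.powerset.filter fun E => (W : Set V) ⊆ convexHull ℝ (E : Set V)
  have h𝓔 : 𝓔.Nonempty := ⟨W, Finset.mem_filter.2 ⟨Finset.mem_powerset_self W,
    subset_convexHull ℝ _⟩⟩
  obtain ⟨E, hE, hmin⟩ := Finset.exists_min_image 𝓔 Finset.card h𝓔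
  rw [Finset.mem_filter, Finset.mem_powerset] at hE
  refine ⟨E, hE.1, hE.2, fun e he hmem => ?_⟩
  have h1 : (E : Set V) ⊆ convexHull ℝ ((E.erase e : Finset V) : Set V) := by
    intro y hy
    by_cases hye : y = e
    · rw [hye]; exact hmem
    · exact subset_convexHull ℝ _ (Finset.mem_coe.2 (Finset.mem_erase.2 ⟨hye, hy⟩))
  have h2 : (W : Set V) ⊆ convexHull ℝ ((E.erase e : Finset V) : Set V) :=
    hE.2.trans (convexHull_min h1 (convex_convexHull ℝ _))
  have h3 := hmin (E.erase e) (Finset.mem_filter.2 ⟨Finset.mem_powerset.2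
    ((Finset.erase_subset e E).trans hE.1), h2⟩)
  have h4 := Finset.card_erase_lt_of_mem he
  omega

/-- an exposing functional at a vertex -/
theorem exposing [DecidableEq V] (u : V →ₗ[ℝ] ℝ) (E : Finset V) (hE : ∀ e ∈ E, u e = 1) (e : V)
    (he : e ∈ E) (hn : e ∉ convexHull ℝ ((E.erase e : Finset V) : Set V)) :
    ∃ φ : V →ₗ[ℝ] ℝ, φ e = 0 ∧ ∀ e' ∈ E, e' ≠ e → 0 < φ e' := by
  obtain ⟨f, s, h1, h2⟩ := geometric_hahn_banach_point_closed
    (convex_convexHull ℝ ((E.erase e : Finset V) : Set V))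
    ((Finset.finite_toSet _).isClosed_convexHull ℝ) hn
  refine ⟨(f : V →ₗ[ℝ] ℝ) - f e • u, ?_, fun e' he' hne => ?_⟩
  · simp [hE e he]
  · have h3 := h2 e' (subset_convexHull ℝ _ (Finset.mem_coe.2 (Finset.mem_erase.2 ⟨hne, he'⟩)))
    simp only [LinearMap.sub_apply, LinearMap.smul_apply, hE e' he', smul_eq_mul, mul_one]
    change 0 < f e' - f e
    linarith

/-- an exposing functional is positive on the rest of the polytope -/
theorem hull_pos (φ : V →ₗ[ℝ] ℝ) (E : Finset V) (e : V) (he : e ∈ E) (h0 : φ e = 0)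
    (hpos : ∀ e' ∈ E, e' ≠ e → 0 < φ e') (y : V) (hy : y ∈ convexHull ℝ (E : Set V)) :
    0 ≤ φ y ∧ (φ y = 0 → y = e) := by
  classical
  obtain ⟨w, hw0, hw1, hwy⟩ := Finset.mem_convexHull'.1 hy
  have h1 : φ y = ∑ e' ∈ E, w e' * φ e' := by
    rw [← hwy, map_sum]
    refine Finset.sum_congr rfl fun e' _ => ?_
    rw [map_smul, smul_eq_mul]
  have h2 : ∀ e' ∈ E, 0 ≤ w e' * φ e' := by
    intro e' he'
    by_cases h : e' = e
    · rw [h, h0, mul_zero]
    · exact mul_nonneg (hw0 e' he') (hpos e' he' h).le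
  refine ⟨by rw [h1]; exact Finset.sum_nonneg h2, fun h3 => ?_⟩
  rw [h1] at h3
  have h4 := (Finset.sum_eq_zero_iff_of_nonneg h2).1 h3
  have h5 : ∀ e' ∈ E, e' ≠ e → w e' = 0 := by
    intro e' he' hne
    rcases mul_eq_zero.1 (h4 e' he') with h6 | h6
    · exact h6
    · exact absurd h6 (hpos e' he' hne).ne'
  have h6 : ∑ e' ∈ E, w e' = w e := Finset.sum_eq_single e h5 (fun h => absurd he h)
  rw [← hwy, Finset.sum_eq_single e (fun e' he' hne => by rw [h5 e' he' hne, zero_smul])
    (fun h => absurd he h), ← h6, hw1, one_smul]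

end lin

end Pool.Agent.MP_9673d9_co.Crystal
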