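import Pool.Agent.MP_9673d9_co.Crystal.Odd2

/-!
# Mixed corners
-/

set_option autoImplicit false

open Finset

namespace Pool.Agent.MP_9673d9_co.Sweep

open Pool.Agent.MP_9673d9_co.Crystal

variable {V : Type*} [NormedAddCommGroup V] [NormedSpace ℝ V]

/-- three independent vectors -/
theorem indep_three {g f f' : V} (h1 : ∀ t : ℝ, f ≠ t • g) (hg : g ≠ 0)
    (h2 : ∀ a b : ℝ, f' ≠ a • g + b • f) : LinearIndependent ℝ ![g, f, f'] := by
  rw [Fintype.linearIndependent_iff]
  intro c hc
  rw [Fin.sum_univ_three] at hc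
  simp only [Matrix.cons_val_zero, Matrix.cons_val_one, Matrix.cons_val_two, Matrix.head_cons,
    Matrix.tail_cons] at hc
  have hc2 : c 2 = 0 := by
    by_contra h
    apply h2 (-(c 2)⁻¹ * c 0) (-(c 2)⁻¹ * c 1)
    have h3 : c 2 • f' = -(c 0 • g + c 1 • f) := by
      rw [eq_neg_iff_add_eq_zero, add_comm]
      exact hc
    calc f' = (c 2)⁻¹ • c 2 • f' := by rw [smul_smul, inv_mul_cancel₀ h, one_smul]
      _ = _ := by
        rw [h3]
        module
  have hc1 : c 1 = 0 := by
    by_contra h
    apply h1 (-(c 1)⁻¹ * c 0)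
    have h3 : c 1 • f = -(c 0 • g) := by
      rw [eq_neg_iff_add_eq_zero, add_comm]
      rw [hc2, zero_smul, add_zero] at hc
      exact hc
    calc f = (c 1)⁻¹ • c 1 • f := by rw [smul_smul, inv_mul_cancel₀ h, one_smul]
      _ = _ := by
        rw [h3]
        module
  have hc0 : c 0 = 0 := by
    rw [hc2, hc1, zero_smul, zero_smul, add_zero, add_zero] at hc
    rcases smul_eq_zero.1 hc with h | h
    · exact h
    · exact absurd h hg
  intro i
  fin_cases i
  · exact hc0
  · exact hc1
  · exact hc2

theorem exposed_neg {S : Finset V} {x : V} {u : V →ₗ[ℝ] ℝ} {e : V} (h : Exposed S x u e) :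
    Exposed S x (-u) (-e) := by
  obtain ⟨hu, φ, hφe, hφ⟩ := h
  refine ⟨by simpa using hu, -φ, by simpa using hφe, fun y hy => ?_⟩
  rcases hφ y hy with ⟨t, rfl⟩ | h
  · left
    exact ⟨-t, by rw [smul_neg, neg_smul, neg_neg]⟩
  · right
    rw [LinearMap.neg_apply, LinearMap.neg_apply, neg_mul_neg]
    exact h

/-- the corner in three-space -/
theorem corner {S : Finset V} {m C : ℕ} (hd3 : 3 ≤ Module.finrank ℝ V) (hm : 1 ≤ m)
    (hcard : S.card = 2 * m + 1) (hS : Unbal S C) :
    ∃ x ∈ S, ∃ g f f' : V, LinearIndependent ℝ ![g, f, f'] ∧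
      C + ray S x (-g) < ray S x g ∧ C + ray S x (-f) < ray S x f ∧
      C + ray S x (-f') < ray S x f' ∧
      ∀ a b : ℝ, 0 < a * b → x + (a • g + b • f) ∉ S ∧ x + (a • g + b • f') ∉ S := by
  classical
  have hcol := noncol_of_unbal (by omega) hS (by omega)
  obtain ⟨x, u, hM, ⟨e, hEe, he⟩, ⟨f, hEf, hf⟩⟩ := mixed_exists hm hcard hS hcol
  obtain ⟨E, hE, hhull⟩ := exposed_vertices S x u hM.2.1
  have huf : u f < 0 := by simpa using hEf.1
  -- some vertex outside the plane spanned by the two directions
  obtain ⟨w, hwE, hw⟩ : ∃ w ∈ E, w ∉ Submodule.span ℝ ({e, f} : Set V) := by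
    by_contra hno
    push Not at hno
    have hne : Submodule.span ℝ ({e, f} : Set V) < ⊤ := by
      rw [lt_top_iff_ne_top]
      intro h
      have h1 := finrank_span_le_card (R := ℝ) ({e, f} : Set V)
      rw [h, finrank_top] at h1
      have h2 : ({e, f} : Set V).toFinset.card ≤ 2 := by
        rw [Set.toFinset_insert, Set.toFinset_singleton]
        exact Finset.card_le_two
      omega
    obtain ⟨φ, hφ, hker⟩ := Submodule.exists_le_ker_of_lt_top _ hne
    have hφE : ∀ w ∈ E, φ w = 0 := fun w hw => hker (hno w hw)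
    have hall : ∀ y ∈ S, φ y = φ x := by
      intro y hy
      by_cases hyx : y = x
      · rw [hyx]
      · have h1 := hhull y hy hyx
        have h2 : convexHull ℝ (E : Set V) ⊆ (LinearMap.ker φ : Set V) :=
          convexHull_min (fun w hw => hφE w hw) (LinearMap.ker φ).convex
        have h3 : φ ((u (y - x))⁻¹ • (y - x)) = 0 := h2 h1
        rw [map_smul, smul_eq_mul, mul_eq_zero, inv_eq_zero] at h3
        rcases h3 with h3 | h3
        · rw [map_sub] at h3
          exact absurd (by linarith) (hM.2.1 y hy hyx)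
        · rw [map_sub] at h3
          linarith
    obtain ⟨p, hp, q, hq, hpq⟩ := Finset.one_lt_card.1 (by omega : 1 < S.card)
    have h1 : (S.filter fun y => φ y < φ p) = ∅ :=
      Finset.filter_eq_empty_iff.2 fun y hy => by
        rw [hall y hy, hall p hp]
        exact lt_irrefl _
    have h2 : (S.filter fun y => φ p < φ y) = ∅ :=
      Finset.filter_eq_empty_iff.2 fun y hy => by
        rw [hall y hy, hall p hp]
        exact lt_irrefl _
    have h3 := hS φ hφ p hp q hq hpq ((hall p hp).trans (hall q hq).symm)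
    rw [h1, h2, Finset.card_empty] at h3
    omega
  have hwspan : ∀ a b : ℝ, w ≠ a • e + b • f := by
    intro a b h
    apply hw
    rw [h]
    exact Submodule.add_mem _ (Submodule.smul_mem _ _ (Submodule.subset_span (by simp)))
      (Submodule.smul_mem _ _ (Submodule.subset_span (by simp)))
  obtain ⟨-, hwX, hwpt⟩ := hE w hwE
  have hpar := not_parallel hEe.1 huf he hf
  have he0 : e ≠ 0 := by
    rintro rfl
    have := hEe.1
    rw [map_zero] at this
    exact lt_irrefl _ this
  have hf0 : f ≠ 0 := by
    rintro rfl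
    rw [map_zero] at huf
    exact lt_irrefl _ huf
  rcases exposed_type hM hS (hcol x) hwX hwpt with h | h
  · -- `w` is heavy upwards
    refine ⟨x, hM.1, f, e, w, ?_, hf, he, h, fun a b hab => ⟨?_, ?_⟩⟩
    · refine indep_three (fun t h' => ?_) hf0 fun a b h' => ?_
      · by_cases ht : t = 0
        · rw [ht, zero_smul] at h'
          exact he0 h'
        · exact hpar t⁻¹ (by rw [h', smul_smul, inv_mul_cancel₀ ht, one_smul])
      · exact hwspan b a (by rw [h', add_comm])
    · rw [add_comm (a • f)]
      exact sector_empty hEe hEf he hf b a (by rw [mul_comm]; exact hab)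
    · rw [add_comm (a • f)]
      exact sector_empty hwX hEf h hf b a (by rw [mul_comm]; exact hab)
  · -- `w` is heavy downwards
    have h' : C + ray S x (- -w) < ray S x (-w) := by rw [neg_neg]; exact h
    refine ⟨x, hM.1, e, f, -w, ?_, he, hf, h', fun a b hab => ⟨?_, ?_⟩⟩
    · refine indep_three hpar he0 fun a b h'' => ?_
      apply hwspan (-a) (-b)
      rw [← neg_neg w, h'', neg_add, neg_smul, neg_smul]
    · exact sector_empty hEe hEf he hf a b hab
    · exact sector_empty hEe (exposed_neg hwX) he h' a b hab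

end Pool.Agent.MP_9673d9_co.Sweep
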