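import Pool.Agent.MP_9673d9_co.Crystal.Repr

/-!
# The counting step
-/

set_option autoImplicit false

open Finset

namespace Pool.Agent.MP_9673d9_co.Crystal

variable {V : Type*} [NormedAddCommGroup V] [NormedSpace ℝ V]

/-- combinations with coefficients of small total weight -/
theorem comb_mem' (Q : Set V) (hQ : Convex ℝ Q) (h0 : (0 : V) ∈ Q) (E : Finset V) (T : ℕ)
    (hT : 1 ≤ T) (γ : V → ℝ) (hγQ : ∀ e ∈ E, ((T : ℝ) * γ e) • e ∈ Q)
    (a : V → ℝ) (ha : ∀ e ∈ E, 0 ≤ a e) (hs : ∑ e ∈ E, a e ≤ T) :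
    ∑ e ∈ E, (a e * γ e) • e ∈ Q := by
  have hT0 : (0 : ℝ) < T := by exact_mod_cast hT
  have h1 := comb_mem Q hQ h0 E (fun e => a e / T) (fun e => ((T : ℝ) * γ e) • e)
    (fun e he => div_nonneg (ha e he) hT0.le) hγQ (by
      rw [← Finset.sum_div, div_le_one hT0]
      exact hs)
  have h2 : ∑ e ∈ E, (a e / T) • ((T : ℝ) * γ e) • e = ∑ e ∈ E, (a e * γ e) • e := by
    refine Finset.sum_congr rfl fun e _ => ?_
    rw [smul_smul]
    congr 1
    field_simp
  rwa [h2] at h1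

variable [FiniteDimensional ℝ V]

theorem final [DecidableEq V] (u : V →ₗ[ℝ] ℝ) (E : Finset V) (hE : ∀ e ∈ E, u e = 1)
    (hEn : E.Nonempty)
    (Q : Set V) (hQ : Convex ℝ Q) (h0 : (0 : V) ∈ Q) (Λ : AddSubgroup V) (L : V → Prop)
    (hL0 : L 0) (hL : ∀ v, ∀ l ∈ Λ, L v → L (v + l)) (d : ℕ) (hd : Module.finrank ℝ V ≤ d)
    (T : ℕ) (hT : 2 ≤ T) (hTd : 4 * d - 2 ≤ T)
    (hT2 : (∀ v, L v → v ∈ Λ) ∨ (d ≤ T ∧ 2 * d * T ≤ (T - d) * (T + 2 - 2 * d)))
    (γ : V → ℝ) (hγ : ∀ e ∈ E, 0 < γ e) (hγΛ : ∀ e ∈ E, γ e • e ∈ Λ)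
    (hγQ : ∀ e ∈ E, ((T : ℝ) * γ e) • e ∈ Q) (hγn : ∀ e ∈ E, -((2 * γ e) • e) ∉ Q)
    (A B X : Finset V) (hA : ∀ w, 0 < u w → w ∈ Q → L w → w ∈ A ∪ X) (hX : X.card + 2 ≤ T)
    (hB : ∀ w ∈ B, 0 < u w ∧ -w ∈ Q ∧ L (-w))
    (hEB : ∀ w ∈ B, (u w)⁻¹ • w ∈ convexHull ℝ (E : Set V)) : B.card < A.card := by
  classical
  have hT1 : 1 ≤ T := by omega
  have hT0 : (0 : ℝ) < T := by exact_mod_cast hT1
  have hTd2 : 2 * d - 2 ≤ T := by omega
  have hd1 : 1 ≤ d := by
    obtain ⟨e, he⟩ := hEn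
    by_contra h
    have h1 : Module.finrank ℝ V = 0 := by omega
    have h2 := Module.finrank_zero_iff.1 h1
    have h3 : e = 0 := Subsingleton.elim _ _
    have h4 := hE e he
    rw [h3, map_zero] at h4
    exact zero_ne_one h4
  have hd0 : (1 : ℝ) ≤ d := by exact_mod_cast hd1
  have hTd' : 2 * (d : ℝ) ≤ T + 2 := by
    have : 2 * d ≤ T + 2 := by omega
    exact_mod_cast this
  have hTd4 : 4 * (d : ℝ) ≤ T + 2 := by
    have : 4 * d ≤ T + 2 := by omega
    exact_mod_cast this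
  have hch : ∀ w, ∃ c : V → ℝ, w ∈ B → (∀ e ∈ E, 0 ≤ c e) ∧
      (E.filter fun e => c e ≠ 0).card ≤ d ∧ w = ∑ e ∈ E, (c e * γ e) • e ∧
      (∑ e ∈ E, c e) * ((T : ℝ) - 2 * ((d : ℝ) - 1)) < 2 * d * T := by
    intro w
    by_cases hw : w ∈ B
    · obtain ⟨h1, h2, h3⟩ := hB w hw
      obtain ⟨c, hc⟩ := repr_full u E hE Q hQ h0 d hd T hT1 hTd2 γ hγ hγQ hγn w h1 (hEB w hw) h2
      exact ⟨c, fun _ => hc⟩
    · exact ⟨0, fun h => absurd h hw⟩
  choose c hc using hch
  -- total weight at most `T`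
  have hsT : ∀ w ∈ B, ∑ e ∈ E, c w e ≤ T := by
    intro w hw
    by_contra hlt
    rw [not_le] at hlt
    have h1 := (hc w hw).2.2.2
    have h2 : (T : ℝ) * ((T : ℝ) - 2 * ((d : ℝ) - 1)) ≤
        (∑ e ∈ E, c w e) * ((T : ℝ) - 2 * ((d : ℝ) - 1)) :=
      mul_le_mul_of_nonneg_right hlt.le (by linarith)
    have h3 : (T : ℝ) * ((T : ℝ) - 2 * ((d : ℝ) - 1)) < T * (2 * d) := by linarith
    have h4 := lt_of_mul_lt_mul_left h3 hT0.le
    linarith
  have hsTd : (d ≤ T ∧ 2 * d * T ≤ (T - d) * (T + 2 - 2 * d)) → ∀ w ∈ B,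
      ∑ e ∈ E, c w e + d ≤ T := by
    rintro ⟨hdT, hineq⟩ w hw
    by_contra hlt
    rw [not_le] at hlt
    have h1 := (hc w hw).2.2.2
    have h5 : (2 : ℝ) * d * T ≤ ((T : ℝ) - d) * ((T : ℝ) - 2 * ((d : ℝ) - 1)) := by
      have h6 : ((2 * d * T : ℕ) : ℝ) ≤ (((T - d) * (T + 2 - 2 * d) : ℕ) : ℝ) := by
        exact_mod_cast hineq
      rw [Nat.cast_mul, Nat.cast_mul, Nat.cast_mul, Nat.cast_sub hdT,
        Nat.cast_sub (by omega)] at h6
      push_cast at h6
      linarith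
    have h2 : ((T : ℝ) - d) * ((T : ℝ) - 2 * ((d : ℝ) - 1)) ≤
        (∑ e ∈ E, c w e) * ((T : ℝ) - 2 * ((d : ℝ) - 1)) :=
      mul_le_mul_of_nonneg_right (by linarith) (by linarith)
    linarith
  -- corrections
  let δ : V → V := fun w => ∑ e ∈ E, (((⌈2 * c w e⌉ : ℝ) - 2 * c w e) * γ e) • e
  have hδ0 : ∀ w e, 0 ≤ (⌈2 * c w e⌉ : ℝ) - 2 * c w e := fun w e =>
    sub_nonneg.2 (Int.le_ceil _)
  have hδs : ∀ w ∈ B, ∑ e ∈ E, ((⌈2 * c w e⌉ : ℝ) - 2 * c w e) ≤ d := by
    intro w hw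
    have h1 : ∑ e ∈ E, ((⌈2 * c w e⌉ : ℝ) - 2 * c w e) ≤
        ∑ e ∈ E, (if c w e ≠ 0 then (1 : ℝ) else 0) := by
      refine Finset.sum_le_sum fun e _ => ?_
      split_ifs with h
      · have := Int.ceil_lt_add_one (2 * c w e)
        linarith
      · rw [not_not] at h
        rw [h]
        simp
    rw [← Finset.sum_filter, Finset.sum_const, nsmul_one] at h1
    have h2 : (((E.filter fun e => c w e ≠ 0).card : ℕ) : ℝ) ≤ d := by
      exact_mod_cast (hc w hw).2.1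
    exact h1.trans h2
  have hδΛ : ∀ w ∈ B, δ w + (w + w) ∈ Λ := by
    intro w hw
    have h1 : δ w + (w + w) = ∑ e ∈ E, ⌈2 * c w e⌉ • γ e • e := by
      have h2 : w + w = ∑ e ∈ E, ((2 * c w e) * γ e) • e := by
        conv_lhs => rw [(hc w hw).2.2.1]
        rw [← Finset.sum_add_distrib]
        refine Finset.sum_congr rfl fun e _ => ?_
        rw [← add_smul]
        congr 1
        ring
      rw [h2]
      change (∑ e ∈ E, (((⌈2 * c w e⌉ : ℝ) - 2 * c w e) * γ e) • e) + _ = _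
      rw [← Finset.sum_add_distrib]
      refine Finset.sum_congr rfl fun e _ => ?_
      rw [← add_smul, ← add_mul, sub_add_cancel, ← Int.cast_smul_eq_zsmul ℝ, smul_smul]
    rw [h1]
    exact Λ.sum_mem fun e he => Λ.zsmul_mem (hγΛ e he) _
  have huδ : ∀ w, 0 ≤ u (δ w) := by
    intro w
    change 0 ≤ u (∑ e ∈ E, (((⌈2 * c w e⌉ : ℝ) - 2 * c w e) * γ e) • e)
    rw [map_sum]
    refine Finset.sum_nonneg fun e he => ?_
    rw [map_smul, hE e he, smul_eq_mul, mul_one]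
    exact mul_nonneg (hδ0 w e) (hγ e he).le
  -- representatives
  let q : V → V ⧸ Λ := fun w => (QuotientAddGroup.mk w : V ⧸ Λ)
  let ρ : V → V := fun w => Function.invFunOn q (B : Set V) (q w)
  have hρ : ∀ w ∈ B, ρ w ∈ B ∧ q (ρ w) = q w := by
    intro w hw
    have h1 : ∃ a ∈ (B : Set V), q a = q w := ⟨w, hw, rfl⟩
    exact ⟨Function.invFunOn_mem h1, Function.invFunOn_eq h1⟩
  let φ : V → V := fun w => if w ∈ Λ then w else w + δ (ρ w)
  have hq : ∀ a b : V, q a = q b ↔ -a + b ∈ Λ := fun a b => QuotientAddGroup.eq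
  have hφq : ∀ w ∈ B, w + φ w ∈ Λ := by
    intro w hw
    by_cases h : w ∈ Λ
    · have : φ w = w := if_pos h
      rw [this]
      exact Λ.add_mem h h
    · have : φ w = w + δ (ρ w) := if_neg h
      rw [this]
      obtain ⟨h1, h2⟩ := hρ w hw
      have h3 := (hq _ _).1 h2
      have h4 := Λ.add_mem (Λ.add_mem (hδΛ _ h1) h3) h3
      have h5 : δ (ρ w) + (ρ w + ρ w) + (-ρ w + w) + (-ρ w + w) = w + (w + δ (ρ w)) := by abel
      rwa [h5] at h4
  have hφA : ∀ w ∈ B, φ w ∈ A ∪ X := by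
    intro w hw
    obtain ⟨h1, h2, h3⟩ := hB w hw
    by_cases h : w ∈ Λ
    · have : φ w = w := if_pos h
      rw [this]
      refine hA w h1 ?_ ?_
      · rw [(hc w hw).2.2.1]
        exact comb_mem' Q hQ h0 E T hT1 γ hγQ _ (hc w hw).1 (hsT w hw)
      · have := hL 0 w h hL0
        rwa [zero_add] at this
    · have hφ : φ w = w + δ (ρ w) := if_neg h
      have h6 : φ w = -w + (w + φ w) := by abel
      refine hA (φ w) ?_ ?_ ?_
      · rw [hφ, map_add]
        have := huδ (ρ w)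
        linarith
      · have h7 : d ≤ T ∧ 2 * d * T ≤ (T - d) * (T + 2 - 2 * d) := by
          rcases hT2 with h8 | h8
          · refine absurd ?_ h
            have := Λ.neg_mem (h8 _ h3)
            rwa [neg_neg] at this
          · exact h8
        have h8 : φ w = ∑ e ∈ E,
            ((c w e + ((⌈2 * c (ρ w) e⌉ : ℝ) - 2 * c (ρ w) e)) * γ e) • e := by
          refine hφ.trans ((congrArg (fun z => z + δ (ρ w)) (hc w hw).2.2.1).trans ?_)
          change (∑ e ∈ E, (c w e * γ e) • e) +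
            (∑ e ∈ E, (((⌈2 * c (ρ w) e⌉ : ℝ) - 2 * c (ρ w) e) * γ e) • e) = _
          rw [← Finset.sum_add_distrib]
          refine Finset.sum_congr rfl fun e _ => ?_
          rw [← add_smul, ← add_mul]
        rw [h8]
        refine comb_mem' Q hQ h0 E T hT1 γ hγQ _
          (fun e he => add_nonneg ((hc w hw).1 e he) (hδ0 _ e)) ?_
        rw [Finset.sum_add_distrib]
        have h9 := hsTd h7 w hw
        have h10 := hδs (ρ w) (hρ w hw).1
        linarith
      · rw [h6]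
        exact hL _ _ (hφq w hw) h3
  have hinj : Set.InjOn φ (B : Set V) := by
    intro w hw w' hw' hww
    have h1 := hφq w hw
    have h2 := hφq w' hw'
    have h3 := Λ.sub_mem h2 h1
    rw [hww, add_sub_add_right_eq_sub] at h3
    have hqq : q w = q w' := by
      rw [hq, neg_add_eq_sub]
      exact h3
    by_cases h : w ∈ Λ
    · have h' : w' ∈ Λ := by
        have := Λ.add_mem h3 h
        rwa [sub_add_cancel] at this
      have e1 : φ w = w := if_pos h
      have e2 : φ w' = w' := if_pos h'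
      rw [← e1, ← e2]
      exact hww
    · have h' : w' ∉ Λ := by
        intro h'
        apply h
        have := Λ.sub_mem h' h3
        rwa [sub_sub_cancel] at this
      have e1 : φ w = w + δ (ρ w) := if_neg h
      have e2 : φ w' = w' + δ (ρ w') := if_neg h'
      have e3 : ρ w = ρ w' := by
        change Function.invFunOn q (B : Set V) (q w) = Function.invFunOn q (B : Set V) (q w')
        rw [hqq]
      rw [e1, e2, e3] at hww
      exact add_right_cancel hww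
  obtain ⟨e, he⟩ := hEn
  have hγe := hγ e he
  -- the multiples of the period are not in the image
  let J : Finset V := (Finset.Icc 2 T).image fun j : ℕ => ((j : ℝ) * γ e) • e
  have hJcard : J.card = T - 1 := by
    have h1 : Set.InjOn (fun j : ℕ => ((j : ℝ) * γ e) • e) (Finset.Icc 2 T : Set ℕ) := by
      intro j _ j' _ hjj
      have h2 := congrArg u hjj
      simp only [map_smul, hE e he, smul_eq_mul, mul_one] at h2
      exact_mod_cast mul_right_cancel₀ hγe.ne' h2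
    rw [Finset.card_image_of_injOn h1, Nat.card_Icc]
    omega
  have hJA : J ⊆ A ∪ X := by
    intro y hy
    obtain ⟨j, hj, rfl⟩ := Finset.mem_image.1 hy
    rw [Finset.mem_Icc] at hj
    have hj1 : (2 : ℝ) ≤ j := by exact_mod_cast hj.1
    have hj2 : (j : ℝ) ≤ T := by exact_mod_cast hj.2
    refine hA _ ?_ ?_ ?_
    · rw [map_smul, hE e he, smul_eq_mul, mul_one]
      exact mul_pos (by linarith) hγe
    · have h1 := hQ.smul_mem_of_zero_mem h0 (hγQ e he) (t := j / T) ⟨by positivity, by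
        rw [div_le_one hT0]
        exact hj2⟩
      have h2 : ((j : ℝ) / (T : ℝ)) • ((T : ℝ) * γ e) • e = ((j : ℝ) * γ e) • e := by
        rw [smul_smul]
        congr 1
        field_simp
      rwa [h2] at h1
    · have h1 := hL 0 _ (Λ.nsmul_mem (hγΛ e he) j) hL0
      have h2 : 0 + j • γ e • e = ((j : ℝ) * γ e) • e := by
        rw [zero_add, ← Nat.cast_smul_eq_nsmul ℝ, smul_smul]
      rwa [h2] at h1
  have hmap : ∀ w ∈ B, φ w ∈ (A ∪ X) \ J := by
    intro w hw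
    refine Finset.mem_sdiff.2 ⟨hφA w hw, fun h => ?_⟩
    obtain ⟨j, hj, hjw⟩ := Finset.mem_image.1 h
    rw [Finset.mem_Icc] at hj
    have hj1 : (2 : ℝ) ≤ j := by exact_mod_cast hj.1
    have h1 := hφq w hw
    have h2 : φ w ∈ Λ := by
      rw [← hjw]
      have h3 := Λ.nsmul_mem (hγΛ e he) j
      rwa [← Nat.cast_smul_eq_nsmul ℝ, smul_smul] at h3
    have h3 : w ∈ Λ := by
      have := Λ.sub_mem h1 h2
      rwa [add_sub_cancel_right] at this
    have h4 : φ w = w := if_pos h3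
    rw [h4] at hjw
    have h5 := (hB w hw).2.1
    rw [← hjw] at h5
    apply hγn e he
    have h6 := hQ.smul_mem_of_zero_mem h0 h5 (t := 2 / j) ⟨by positivity, by
      rw [div_le_one (by linarith)]
      exact hj1⟩
    have h7 : (2 / (j : ℝ)) • -(((j : ℝ) * γ e) • e) = -((2 * γ e) • e) := by
      rw [smul_neg, smul_smul, ← mul_assoc, div_mul_cancel₀ _ (by linarith : (j : ℝ) ≠ 0)]
    rwa [h7] at h6
  have h1 := Finset.card_le_card_of_injOn φ hmap hinj
  have h2 := Finset.card_sdiff_add_card_eq_card hJA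
  have h3 := Finset.card_union_le A X
  omega

end Pool.Agent.MP_9673d9_co.Crystal
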