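import Pool.Agent.MP_9673d9_co.Crystal.Basic

/-!
# Periods along rich lines, and convex sets containing the origin
-/

set_option autoImplicit false

open Finset

namespace Pool.Agent.MP_9673d9_co.Crystal

variable {V : Type*} [NormedAddCommGroup V] [NormedSpace ℝ V]

/-- a finite set of at least `T + 1` reals has two elements with a small difference -/
theorem small_gap (Q : Finset ℝ) (T : ℕ) (hT : 1 ≤ T) (hQ : T + 1 ≤ Q.card) (M : ℝ)
    (hM : ∀ t ∈ Q, 0 ≤ t ∧ t ≤ M) : ∃ t ∈ Q, ∃ t' ∈ Q, t < t' ∧ T * (t' - t) ≤ M := by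
  classical
  obtain ⟨a, ha, b, hb, hab⟩ := Finset.one_lt_card.1 (by omega : 1 < Q.card)
  let D : Finset (ℝ × ℝ) := (Q ×ˢ Q).filter fun p => p.1 < p.2
  have hD : D.Nonempty := by
    rcases lt_or_gt_of_ne hab with h | h
    · exact ⟨(a, b), Finset.mem_filter.2 ⟨Finset.mem_product.2 ⟨ha, hb⟩, h⟩⟩
    · exact ⟨(b, a), Finset.mem_filter.2 ⟨Finset.mem_product.2 ⟨hb, ha⟩, h⟩⟩
  obtain ⟨⟨t, t'⟩, hp, hmin⟩ := Finset.exists_min_image D (fun p => p.2 - p.1) hD
  rw [Finset.mem_filter, Finset.mem_product] at hp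
  obtain ⟨⟨ht, ht'⟩, htt⟩ := hp
  change t < t' at htt
  refine ⟨t, ht, t', ht', htt, ?_⟩
  have hγ : 0 < t' - t := sub_pos.2 htt
  have h1 : Q.card ≤ (Finset.range (⌊M / (t' - t)⌋₊ + 1)).card := by
    refine Finset.card_le_card_of_injOn (fun r => ⌊r / (t' - t)⌋₊) (fun r hr => ?_) ?_
    · rw [Finset.mem_coe, Finset.mem_range, Nat.lt_succ_iff]
      exact Nat.floor_le_floor (div_le_div_of_nonneg_right (hM r hr).2 hγ.le)
    · intro r hr r' hr' hrr
      by_contra hne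
      have key : ∀ r ∈ Q, ∀ r' ∈ Q, r < r' → ⌊r / (t' - t)⌋₊ = ⌊r' / (t' - t)⌋₊ → False := by
        intro r hr r' hr' hlt h
        have h2 := hmin (r, r') (Finset.mem_filter.2 ⟨Finset.mem_product.2 ⟨hr, hr'⟩, hlt⟩)
        change t' - t ≤ r' - r at h2
        have h3 : r / (t' - t) + 1 ≤ r' / (t' - t) := by
          rw [div_add_one hγ.ne', div_le_div_iff_of_pos_right hγ]
          linarith
        have h4 : ⌊r / (t' - t)⌋₊ + 1 ≤ ⌊r' / (t' - t)⌋₊ := by
          rw [Nat.le_floor_iff (by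
            have := (hM r' hr').1
            positivity)]
          push_cast
          have := Nat.floor_le (div_nonneg (hM r hr).1 hγ.le)
          linarith
        omega
      rcases lt_or_gt_of_ne hne with h | h
      · exact key r hr r' hr' h hrr
      · exact key r' hr' r hr h hrr.symm
  rw [Finset.card_range] at h1
  have h2 : T ≤ ⌊M / (t' - t)⌋₊ := by omega
  have hM0 : 0 ≤ M := (hM t ht).1.trans (hM t ht).2
  have h3 := (Nat.le_floor_iff (by positivity)).1 h2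
  rwa [le_div_iff₀ hγ] at h3

/-- a line with many points has a period of the group, short compared with the segment -/
theorem line_period (K : Set V) (hK : Convex ℝ K) (Λ : AddSubgroup V) (F : Finset V)
    (x : V) (hx : x ∈ K) (e : V) (P : Finset ℝ)
    (hP : ∀ t ∈ P, 0 ≤ t ∧ x + t • e ∈ K ∧ ∃ a ∈ F, x + t • e - a ∈ Λ) (T : ℕ) (hT : 1 ≤ T)
    (hcard : F.card * (T + 1) ≤ P.card) (hPn : P.Nonempty) :
    ∃ γ : ℝ, 0 < γ ∧ γ • e ∈ Λ ∧ x + (T * γ) • e ∈ K := by
  classical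
  have hF : F.Nonempty := by
    obtain ⟨t, ht⟩ := hPn
    obtain ⟨-, -, a, ha, -⟩ := hP t ht
    exact ⟨a, ha⟩
  have hch : ∀ t : ℝ, ∃ a : V, t ∈ P → a ∈ F ∧ x + t • e - a ∈ Λ := by
    intro t
    by_cases ht : t ∈ P
    · obtain ⟨-, -, a, ha, h⟩ := hP t ht
      exact ⟨a, fun _ => ⟨ha, h⟩⟩
    · exact ⟨0, fun h => absurd h ht⟩
  choose f hf using hch
  obtain ⟨a, ha, hcard'⟩ := Finset.exists_le_card_fiber_of_mul_le_card_of_maps_to
    (fun t ht => (hf t ht).1) hF hcard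
  obtain ⟨tm, htm, hmax⟩ := Finset.exists_max_image P id hPn
  obtain ⟨t, ht, t', ht', htt, hle⟩ := small_gap (P.filter fun t => f t = a) T hT hcard' tm
    (fun t ht => ⟨(hP t (Finset.mem_filter.1 ht).1).1, hmax t (Finset.mem_filter.1 ht).1⟩)
  rw [Finset.mem_filter] at ht ht'
  refine ⟨t' - t, sub_pos.2 htt, ?_, ?_⟩
  · have h1 := Λ.sub_mem (hf t' ht'.1).2 (hf t ht.1).2
    rw [ht.2, ht'.2] at h1
    have h2 : x + t' • e - a - (x + t • e - a) = (t' - t) • e := by
      rw [sub_smul]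
      abel
    rwa [h2] at h1
  · have h0 : 0 ≤ (T : ℝ) * (t' - t) := mul_nonneg (Nat.cast_nonneg T) (sub_pos.2 htt).le
    rcases eq_or_lt_of_le (hP tm htm).1 with h | h
    · have : (T : ℝ) * (t' - t) = 0 := le_antisymm (by rw [h]; exact hle) h0
      rw [this, zero_smul, add_zero]
      exact hx
    · have h3 := hK hx (hP tm htm).2.1 (a := 1 - (T : ℝ) * (t' - t) / tm)
        (b := (T : ℝ) * (t' - t) / tm) (by
          rw [sub_nonneg, div_le_one h]
          exact hle) (div_nonneg h0 h.le) (by ring)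
      have h4 : (1 - (T : ℝ) * (t' - t) / tm) • x + ((T : ℝ) * (t' - t) / tm) • (x + tm • e) =
          x + ((T : ℝ) * (t' - t)) • e := by
        rw [smul_add, smul_smul, div_mul_cancel₀ _ h.ne', sub_smul, one_smul]
        abel
      rwa [h4] at h3

/-- non-negative combinations of total weight at most one -/
theorem comb_mem {ι : Type*} (Q : Set V) (hQ : Convex ℝ Q) (h0 : (0 : V) ∈ Q) (E : Finset ι)
    (c : ι → ℝ) (q : ι → V) (hc : ∀ i ∈ E, 0 ≤ c i) (hq : ∀ i ∈ E, q i ∈ Q)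
    (hs : ∑ i ∈ E, c i ≤ 1) : ∑ i ∈ E, c i • q i ∈ Q := by
  classical
  rcases eq_or_lt_of_le (Finset.sum_nonneg hc) with h | h
  · have h1 := (Finset.sum_eq_zero_iff_of_nonneg hc).1 h.symm
    rw [Finset.sum_eq_zero fun i hi => by rw [h1 i hi, zero_smul]]
    exact h0
  · have h1 : ∑ i ∈ E, (c i / ∑ j ∈ E, c j) • q i ∈ Q :=
      hQ.sum_mem (fun i hi => div_nonneg (hc i hi) h.le)
        (by rw [← Finset.sum_div, div_self h.ne']) hq
    have h2 := hQ.smul_mem_of_zero_mem h0 h1 ⟨h.le, hs⟩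
    rw [Finset.smul_sum] at h2
    have h3 : ∑ i ∈ E, (∑ j ∈ E, c j) • (c i / ∑ j ∈ E, c j) • q i = ∑ i ∈ E, c i • q i := by
      refine Finset.sum_congr rfl fun i _ => ?_
      rw [smul_smul, mul_div_cancel₀ _ h.ne']
    rwa [h3] at h2

end Pool.Agent.MP_9673d9_co.Crystal
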