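import Pool.Agent.MP_9673d9_co.Crystal.Odd

/-!
# Finite pieces of crystals: all cardinalities, and coordinates
-/

set_option autoImplicit false

open Finset

namespace Pool.Agent.MP_9673d9_co.Crystal

section general

variable {V : Type*} [NormedAddCommGroup V] [NormedSpace ℝ V] [FiniteDimensional ℝ V]

omit [FiniteDimensional ℝ V] in
/-- two points lie in a common hyperplane -/
theorem two_points (hd2 : 2 ≤ Module.finrank ℝ V) (p q : V) :
    ∃ φ : V →ₗ[ℝ] ℝ, φ ≠ 0 ∧ φ p = φ q := by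
  have hne : Submodule.span ℝ ({p - q} : Set V) < ⊤ := by
    rw [lt_top_iff_ne_top]
    intro h
    have h1 := finrank_span_le_card (R := ℝ) ({p - q} : Set V)
    rw [h, finrank_top] at h1
    simp at h1
    omega
  obtain ⟨φ, hφ, hφe⟩ := Submodule.exists_le_ker_of_lt_top _ hne
  refine ⟨φ, hφ, ?_⟩
  have h1 : φ (p - q) = 0 := hφe (Submodule.mem_span_singleton_self _)
  rw [map_sub] at h1
  linarith

theorem main_case (d : ℕ) (hd : Module.finrank ℝ V ≤ d)
    (hd2 : 2 ≤ Module.finrank ℝ V) (K : Set V) (hK : Convex ℝ K) (Λ : AddSubgroup V)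
    (F : Finset V) (S X : Finset V) (hS : ∀ v ∈ S, v ∈ K ∧ ∃ a ∈ F, v - a ∈ Λ)
    (hX : ∀ v, v ∈ K → (∃ a ∈ F, v - a ∈ Λ) → v ∈ S ∨ v ∈ X)
    (T : ℕ) (hTX : 2 * (X.card + 1) ≤ T) (hTd : 4 * d - 2 ≤ T)
    (hT2 : F.card ≤ 1 ∨ (d ≤ T ∧ 2 * d * T ≤ (T - d) * (T + 2 - 2 * d)))
    (C : ℕ) (hC : F.card * (T + 1) ≤ C + 2) (hcard : 2 ≤ S.card) :
    ∃ φ : V →ₗ[ℝ] ℝ, φ ≠ 0 ∧ ∃ p ∈ S, ∃ q ∈ S, p ≠ q ∧ φ p = φ q ∧
      (S.filter fun v => φ v < φ p).card ≤ (S.filter fun v => φ p < φ v).card + (C + 1) ∧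
      (S.filter fun v => φ p < φ v).card ≤ (S.filter fun v => φ v < φ p).card + (C + 1) := by
  classical
  rcases Nat.even_or_odd' S.card with ⟨m, hm | hm⟩
  · rcases Nat.lt_or_ge S.card 3 with h2 | h3
    · -- two points
      have h2' : S.card = 2 := by omega
      obtain ⟨p, q, hpq, hSpq⟩ := Finset.card_eq_two.1 h2'
      obtain ⟨φ, hφ, hφpq⟩ := two_points hd2 p q
      refine ⟨φ, hφ, p, by rw [hSpq]; simp, q, by rw [hSpq]; simp, hpq, hφpq, ?_, ?_⟩
      · have : (S.filter fun v => φ v < φ p) = ∅ := by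
          refine Finset.filter_eq_empty_iff.2 fun v hv => ?_
          rw [hSpq] at hv
          rcases Finset.mem_insert.1 hv with rfl | hv
          · exact lt_irrefl _
          · rw [Finset.mem_singleton.1 hv, hφpq]
            exact lt_irrefl _
        rw [this, Finset.card_empty]
        exact Nat.zero_le _
      · have : (S.filter fun v => φ p < φ v) = ∅ := by
          refine Finset.filter_eq_empty_iff.2 fun v hv => ?_
          rw [hSpq] at hv
          rcases Finset.mem_insert.1 hv with rfl | hv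
          · exact lt_irrefl _
          · rw [Finset.mem_singleton.1 hv, hφpq]
            exact lt_irrefl _
        rw [this, Finset.card_empty]
        exact Nat.zero_le _
    · -- remove an extreme point
      obtain ⟨u, hu⟩ := exists_inj S
      obtain ⟨v0, hv0, hmax⟩ := Finset.exists_max_image S u (Finset.card_pos.1 (by omega))
      have hS' : ∀ v ∈ S.erase v0, v ∈ K ∩ {w | u w < u v0} ∧ ∃ a ∈ F, v - a ∈ Λ := by
        intro v hv
        obtain ⟨h1, h2⟩ := Finset.mem_erase.1 hv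
        obtain ⟨h4, h5⟩ := hS v h2
        exact ⟨⟨h4, lt_of_le_of_ne (hmax v h2) fun h => h1 (hu h2 hv0 h)⟩, h5⟩
      have hX' : ∀ v, v ∈ K ∩ {w | u w < u v0} → (∃ a ∈ F, v - a ∈ Λ) →
          v ∈ S.erase v0 ∨ v ∈ X := by
        rintro v ⟨h1, h2⟩ h4
        rcases hX v h1 h4 with h5 | h5
        · left
          refine Finset.mem_erase.2 ⟨fun h => ?_, h5⟩
          rw [h] at h2
          exact lt_irrefl (u v0) h2
        · exact Or.inr h5
      have hK' : Convex ℝ (K ∩ {w | u w < u v0}) :=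
        hK.inter (convex_halfSpace_lt u.isLinear _)
      obtain ⟨φ, hφ, p, hp, q, hq, hpq, hφpq, h1, h2⟩ := odd_case d hd hd2 _ hK' Λ F (S.erase v0)
        X hS' hX' T hTX hTd hT2 C hC (m - 1) (by omega) (by
          rw [Finset.card_erase_of_mem hv0]
          omega)
      refine ⟨φ, hφ, p, Finset.mem_of_mem_erase hp, q, Finset.mem_of_mem_erase hq, hpq, hφpq, ?_, ?_⟩
      · have h3 : (S.filter fun v => φ v < φ p).card ≤
            ((S.erase v0).filter fun v => φ v < φ p).card + 1 := by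
          rw [Finset.filter_erase]
          have := Finset.pred_card_le_card_erase (s := S.filter fun v => φ v < φ p) (a := v0)
          omega
        have h4 : ((S.erase v0).filter fun v => φ p < φ v).card ≤
            (S.filter fun v => φ p < φ v).card :=
          Finset.card_le_card (Finset.filter_subset_filter _ (Finset.erase_subset _ _))
        omega
      · have h3 : (S.filter fun v => φ p < φ v).card ≤
            ((S.erase v0).filter fun v => φ p < φ v).card + 1 := by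
          rw [Finset.filter_erase]
          have := Finset.pred_card_le_card_erase (s := S.filter fun v => φ p < φ v) (a := v0)
          omega
        have h4 : ((S.erase v0).filter fun v => φ v < φ p).card ≤
            (S.filter fun v => φ v < φ p).card :=
          Finset.card_le_card (Finset.filter_subset_filter _ (Finset.erase_subset _ _))
        omega
  · obtain ⟨φ, hφ, p, hp, q, hq, hpq, hφpq, h1, h2⟩ := odd_case d hd hd2 K hK Λ F S
      X hS hX T hTX hTd hT2 C hC m (by omega) hm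
    exact ⟨φ, hφ, p, hp, q, hq, hpq, hφpq, by omega, by omega⟩

end general

/-- the statement in coordinates -/
theorem coord_case (d : ℕ) (hd2 : 2 ≤ d) (K : Set (Fin d → ℝ)) (hK : Convex ℝ K)
    (Λ : AddSubgroup (Fin d → ℝ)) (F : Finset (Fin d → ℝ)) (S X : Finset (Fin d → ℝ))
    (hS : ∀ v ∈ S, v ∈ K ∧ ∃ a ∈ F, v - a ∈ Λ)
    (hX : ∀ v, v ∈ K → (∃ a ∈ F, v - a ∈ Λ) → v ∈ S ∨ v ∈ X)
    (T : ℕ) (hTX : 2 * (X.card + 1) ≤ T) (hTd : 4 * d - 2 ≤ T)
    (hT2 : F.card ≤ 1 ∨ (d ≤ T ∧ 2 * d * T ≤ (T - d) * (T + 2 - 2 * d))) (hcard : 2 ≤ S.card) :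
    ∃ p ∈ S, ∃ q ∈ S, p ≠ q ∧
    ∃ v : Fin d → ℝ, v ≠ 0 ∧ ∃ c : ℝ,
      (∑ i, v i * p i = c) ∧ (∑ i, v i * q i = c) ∧
      |((S.filter (fun x => ∑ i, v i * x i < c)).card : ℤ)
        - ((S.filter (fun x => c < ∑ i, v i * x i)).card : ℤ)| ≤ (T + 1) * (F.card : ℤ) - 1 := by
  classical
  have hF : 1 ≤ F.card := by
    obtain ⟨v, hv⟩ := Finset.card_pos.1 (by omega : 0 < S.card)
    obtain ⟨-, a, ha, -⟩ := hS v hv
    exact Finset.card_pos.2 ⟨a, ha⟩
  have hfin : Module.finrank ℝ (Fin d → ℝ) = d := by simp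
  have hge : T + 1 ≤ F.card * (T + 1) := Nat.le_mul_of_pos_left _ hF
  obtain ⟨φ, hφ, p, hp, q, hq, hpq, hφpq, h1, h2⟩ := main_case d hfin.le (hfin.symm ▸ hd2) K hK Λ F S
    X hS hX T hTX hTd hT2 (F.card * (T + 1) - 2) (by omega) hcard
  have hv : ∀ x : Fin d → ℝ, ∑ i, φ (Pi.single i 1) * x i = φ x := by
    intro x
    conv_rhs => rw [← Finset.univ_sum_single x, map_sum]
    refine Finset.sum_congr rfl fun i _ => ?_
    have h3 : (Pi.single i (x i) : Fin d → ℝ) = x i • Pi.single i 1 := by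
      rw [← Pi.single_smul, smul_eq_mul, mul_one]
    rw [h3, map_smul, smul_eq_mul, mul_comm]
  refine ⟨p, hp, q, hq, hpq, fun i => φ (Pi.single i 1), ?_, φ p, hv p, (hv q).trans hφpq.symm, ?_⟩
  · intro h
    apply hφ
    ext x
    have := congrFun h x
    simpa using this
  · simp only [hv]
    rw [abs_le]
    have h4 : ((F.card * (T + 1) - 2 + 1 : ℕ) : ℤ) = (T + 1) * (F.card : ℤ) - 1 := by
      rw [Nat.cast_add, Nat.cast_sub (by omega)]
      push_cast
      ring
    rw [← h4]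
    constructor <;> omega

end Pool.Agent.MP_9673d9_co.Crystal
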