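import Pool.Agent.MP_9673d9_co.Crystal.Vert

/-!
# The sweep: existence of a median point with exposed directions of both types
-/

set_option autoImplicit false

open Finset Filter Topology

namespace Pool.Agent.MP_9673d9_co.Sweep

open Pool.Agent.MP_9673d9_co.Crystal

variable {V : Type*} [NormedAddCommGroup V] [NormedSpace ℝ V]

/-- positive functionals -/
def PosF (S : Finset V) (m C : ℕ) (u : V →ₗ[ℝ] ℝ) : Prop :=
  ∃ x ∈ S, ((S.filter fun y => u y < u x).card ≤ m ∧ (S.filter fun y => u x < u y).card ≤ m) ∧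
    (((∃ y ∈ S, y ≠ x ∧ u y = u x) ∧
      C + (S.filter fun y => u x < u y).card < (S.filter fun y => u y < u x).card) ∨
    ((∀ y ∈ S, y ≠ x → u y ≠ u x) ∧ TypeP S C x u))

theorem typeP_neg {S : Finset V} {C : ℕ} {x : V} {u : V →ₗ[ℝ] ℝ} (h : TypeN S C x u) :
    TypeP S C x (-u) := by
  obtain ⟨e, ⟨hu, φ, hφe, hφ⟩, hlt⟩ := h
  refine ⟨-e, ⟨?_, -φ, ?_, fun y hy => ?_⟩, ?_⟩
  · simpa using hu
  · simpa using hφe
  · rcases hφ y hy with ⟨t, rfl⟩ | h
    · left
      exact ⟨-t, by rw [smul_neg, neg_smul, neg_neg]⟩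
    · right
      rw [LinearMap.neg_apply, LinearMap.neg_apply, neg_mul_neg]
      exact h
  · rw [neg_neg]
    exact hlt

theorem weak_of_med {S : Finset V} {m : ℕ} {x : V} {u : V →ₗ[ℝ] ℝ} (h : Med S m x u) :
    (S.filter fun y => u y < u x).card ≤ m ∧ (S.filter fun y => u x < u y).card ≤ m :=
  ⟨h.2.2.1.le, h.2.2.2.le⟩

/-- weak medians that are alone on their level are strict medians -/
theorem med_of_alone {S : Finset V} {m : ℕ} (hcard : S.card = 2 * m + 1) {x : V}
    {u : V →ₗ[ℝ] ℝ} (hx : x ∈ S)
    (hw : (S.filter fun y => u y < u x).card ≤ m ∧ (S.filter fun y => u x < u y).card ≤ m)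
    (halone : ∀ y ∈ S, y ≠ x → u y ≠ u x) : Med S m x u := by
  classical
  have h1 : S ⊆ insert x ((S.filter fun y => u y < u x) ∪ S.filter fun y => u x < u y) := by
    intro y hy
    rcases lt_trichotomy (u y) (u x) with h | h | h
    · exact Finset.mem_insert_of_mem (Finset.mem_union_left _ (Finset.mem_filter.2 ⟨hy, h⟩))
    · by_cases hyx : y = x
      · rw [hyx]
        exact Finset.mem_insert_self _ _
      · exact absurd h (halone y hy hyx)
    · exact Finset.mem_insert_of_mem (Finset.mem_union_right _ (Finset.mem_filter.2 ⟨hy, h⟩))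
  have h2 := (Finset.card_le_card h1).trans ((Finset.card_insert_le _ _).trans
    (Nat.add_le_add_right (Finset.card_union_le _ _) 1))
  exact ⟨hx, halone, by omega, by omega⟩

theorem filter_neg_lt (S : Finset V) (x : V) (u : V →ₗ[ℝ] ℝ) :
    (S.filter fun y => (-u) y < (-u) x) = S.filter fun y => u x < u y :=
  Finset.filter_congr fun y _ => by simp

theorem filter_neg_gt (S : Finset V) (x : V) (u : V →ₗ[ℝ] ℝ) :
    (S.filter fun y => (-u) x < (-u) y) = S.filter fun y => u y < u x :=
  Finset.filter_congr fun y _ => by simp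

/-- each functional is positive or negative -/
theorem pos_or_neg {S : Finset V} {m C : ℕ} (hm : 1 ≤ m) (hcard : S.card = 2 * m + 1)
    (hS : Unbal S C) (hcol : ∀ x e : V, ∃ y ∈ S, ∀ t : ℝ, y ≠ x + t • e) (u : V →ₗ[ℝ] ℝ)
    (hu : u ≠ 0) : PosF S m C u ∨ PosF S m C (-u) := by
  obtain ⟨x, hx, hw⟩ := exists_weak_median S u m hcard
  by_cases hb : ∃ y ∈ S, y ≠ x ∧ u y = u x
  · obtain ⟨y, hy, hyx, huy⟩ := hb
    rcases hS u hu x hx y hy (Ne.symm hyx) huy.symm with h | h
    · right
      refine ⟨x, hx, ?_, Or.inl ⟨⟨y, hy, hyx, by simp [huy]⟩, ?_⟩⟩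
      · rw [filter_neg_lt, filter_neg_gt]
        exact ⟨hw.2, hw.1⟩
      · rw [filter_neg_lt, filter_neg_gt]
        exact h
    · left
      exact ⟨x, hx, hw, Or.inl ⟨⟨y, hy, hyx, huy⟩, h⟩⟩
  · push Not at hb
    have hM := med_of_alone hcard hx hw hb
    rcases exists_type hm hM hS (hcol x) with h | h
    · left
      exact ⟨x, hx, hw, Or.inr ⟨hb, h⟩⟩
    · right
      refine ⟨x, hx, ?_, Or.inr ⟨fun y hy hyx h => hb y hy hyx ?_, typeP_neg h⟩⟩
      · rw [filter_neg_lt, filter_neg_gt]
        exact ⟨hw.2, hw.1⟩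
      · simpa using h

/-- no functional is both positive and negative -/
theorem not_both {S : Finset V} {m C : ℕ} (hcard : S.card = 2 * m + 1)
    (hmix : ∀ x u, Med S m x u → ¬ (TypeP S C x u ∧ TypeP S C x (-u))) (u : V →ₗ[ℝ] ℝ)
    (h1 : PosF S m C u) (h2 : PosF S m C (-u)) : False := by
  obtain ⟨x, hx, hw, h⟩ := h1
  obtain ⟨x', hx', hw', h'⟩ := h2
  rw [filter_neg_lt, filter_neg_gt] at hw' h'
  have hval : u x = u x' := weak_median_unique S u m hcard x x' hw ⟨hw'.2, hw'.1⟩
  rcases h with ⟨⟨y, hy, hyx, huy⟩, hlt⟩ | ⟨halone, hP⟩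
  · rcases h' with ⟨-, hlt'⟩ | ⟨halone', -⟩
    · rw [← hval] at hlt'
      omega
    · by_cases hyx' : y = x'
      · refine halone' x hx ?_ (by simp [hval])
        rintro rfl
        exact hyx hyx'
      · exact halone' y hy hyx' (by simp [huy, hval])
  · have hxx : x' = x := by
      by_contra hne
      exact halone x' hx' hne hval.symm
    subst hxx
    rcases h' with ⟨⟨y, hy, hyx, huy⟩, -⟩ | ⟨-, hP'⟩
    · refine halone y hy hyx ?_
      simpa using huy
    · exact hmix _ u (med_of_alone hcard hx hw halone) ⟨hP, hP'⟩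

/-- positivity only depends on the signs of the differences -/
theorem pos_transfer {S : Finset V} {m C : ℕ} {x : V} {u u' : V →ₗ[ℝ] ℝ} (hx : x ∈ S)
    (hw : (S.filter fun y => u y < u x).card ≤ m ∧ (S.filter fun y => u x < u y).card ≤ m)
    (hP : TypeP S C x u) (hsign : ∀ y ∈ S, y ≠ x → 0 < u (y - x) * u' (y - x)) :
    PosF S m C u' := by
  have hlt : ∀ y ∈ S, (u' y < u' x ↔ u y < u x) ∧ (u' x < u' y ↔ u x < u y) := by
    intro y hy
    by_cases hyx : y = x
    · rw [hyx]
      simp
    · have h := hsign y hy hyx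
      rw [map_sub, map_sub] at h
      constructor
      · constructor
        · intro h1
          by_contra h2
          have : (u y - u x) * (u' y - u' x) ≤ 0 :=
            mul_nonpos_of_nonneg_of_nonpos (by linarith) (by linarith)
          linarith
        · intro h1
          by_contra h2
          have : (u y - u x) * (u' y - u' x) ≤ 0 :=
            mul_nonpos_of_nonpos_of_nonneg (by linarith) (by linarith)
          linarith
      · constructor
        · intro h1
          by_contra h2
          have : (u y - u x) * (u' y - u' x) ≤ 0 :=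
            mul_nonpos_of_nonpos_of_nonneg (by linarith) (by linarith)
          linarith
        · intro h1
          by_contra h2
          have : (u y - u x) * (u' y - u' x) ≤ 0 :=
            mul_nonpos_of_nonneg_of_nonpos (by linarith) (by linarith)
          linarith
  refine ⟨x, hx, ?_, Or.inr ⟨fun y hy hyx h => ?_, ?_⟩⟩
  · rw [Finset.filter_congr fun y hy => (hlt y hy).1, Finset.filter_congr fun y hy => (hlt y hy).2]
    exact hw
  · have := hsign y hy hyx
    rw [map_sub u', h, sub_self, mul_zero] at this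
    exact lt_irrefl _ this
  · obtain ⟨e, ⟨hu, φ, hφe, hφ⟩, hC⟩ := hP
    refine ⟨e, ⟨?_, φ, hφe, fun y hy => ?_⟩, hC⟩
    · obtain ⟨t, ht, htS⟩ := exists_of_ray_pos (by omega : 0 < ray S x e)
      have hne : x + t • e ≠ x := by
        intro h
        rw [add_eq_left] at h
        have h1 : u (t • e) = 0 := by rw [h, map_zero]
        rw [map_smul, smul_eq_mul] at h1
        have := mul_pos ht hu
        linarith
      have h := hsign _ htS hne
      rw [add_sub_cancel_left, map_smul, map_smul, smul_eq_mul, smul_eq_mul] at h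
      have h1 : t * u e * (t * u' e) = (t ^ 2 * u e) * u' e := by ring
      rw [h1] at h
      exact pos_of_mul_pos_right h (by positivity)
    · rcases hφ y hy with h | h
      · exact Or.inl h
      · right
        have hyx : y ≠ x := by
          rintro rfl
          rw [sub_self, map_zero, map_zero, mul_zero] at h
          exact lt_irrefl _ h
        have h1 := mul_pos h (hsign y hy hyx)
        have h2 : φ (y - x) * u (y - x) * (u (y - x) * u' (y - x)) =
            (u (y - x)) ^ 2 * (φ (y - x) * u' (y - x)) := by ring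
        rw [h2] at h1
        exact pos_of_mul_pos_right h1 (by positivity)

/-- positivity is an open condition along a generic pencil -/
theorem open_pos {S : Finset V} {m C : ℕ} (hcard : S.card = 2 * m + 1) (u0 u1 : V →ₗ[ℝ] ℝ)
    (hinj : ∀ y ∈ S, ∀ z ∈ S, y ≠ z → u1 (y - z) ≠ 0)
    (hgen : ∀ y ∈ S, ∀ z ∈ S, ∀ y' ∈ S, ∀ z' ∈ S, y ≠ z →
      u0 (y - z) * u1 (y' - z') = u1 (y - z) * u0 (y' - z') → ∃ s : ℝ, y' - z' = s • (y - z)) :
    IsOpen {t : ℝ | PosF S m C (u0 + t • u1)} := by
  classical
  rw [isOpen_iff_eventually]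
  intro t0 ht0
  have hcont : ∀ v : V, ∀ a : ℝ, 0 < a * (u0 + t0 • u1) v →
      ∀ᶠ t in 𝓝 t0, 0 < a * (u0 + t • u1) v := by
    intro v a h
    have hc : Continuous fun t : ℝ => a * (u0 + t • u1) v := by
      simp only [LinearMap.add_apply, LinearMap.smul_apply, smul_eq_mul]
      fun_prop
    exact hc.continuousAt.eventually (lt_mem_nhds h)
  obtain ⟨x, hx, hw, h⟩ := ht0
  rcases h with ⟨⟨y0, hy0, hy0x, huy0⟩, hlt⟩ | ⟨halone, hP⟩
  · -- a non-trivial block
    set a := (S.filter fun y => (u0 + t0 • u1) y < (u0 + t0 • u1) x).card with ha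
    set b := (S.filter fun y => (u0 + t0 • u1) x < (u0 + t0 • u1) y).card with hb
    let M := S.filter fun y => (u0 + t0 • u1) y = (u0 + t0 • u1) x
    have hMcard : M.card + (a + b) = 2 * m + 1 := by
      rw [← hcard, ha, hb, ← Finset.card_union_of_disjoint, ← Finset.card_union_of_disjoint]
      · congr 1
        ext y
        simp only [M, Finset.mem_union, Finset.mem_filter]
        constructor
        · rintro (⟨h, -⟩ | ⟨h, -⟩ | ⟨h, -⟩) <;> exact h
        · intro h
          rcases lt_trichotomy ((u0 + t0 • u1) y) ((u0 + t0 • u1) x) with h1 | h1 | h1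
          · exact Or.inr (Or.inl ⟨h, h1⟩)
          · exact Or.inl ⟨h, h1⟩
          · exact Or.inr (Or.inr ⟨h, h1⟩)
      · rw [Finset.disjoint_left]
        intro y h1 h2
        have h3 := (Finset.mem_filter.1 h1).2
        rcases Finset.mem_union.1 h2 with h4 | h4
        · exact absurd h3 (Finset.mem_filter.1 h4).2.ne
        · exact absurd h3.symm (Finset.mem_filter.1 h4).2.ne
      · rw [Finset.disjoint_left]
        intro y h1 h2
        exact lt_asymm (Finset.mem_filter.1 h1).2 (Finset.mem_filter.1 h2).2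
    have hev : ∀ᶠ t in 𝓝 t0, ∀ y ∈ S, ∀ z ∈ S, (u0 + t0 • u1) (y - z) ≠ 0 →
        0 < (u0 + t0 • u1) (y - z) * (u0 + t • u1) (y - z) := by
      refine (Finset.eventually_all S).2 fun y _ => (Finset.eventually_all S).2 fun z _ => ?_
      by_cases h : (u0 + t0 • u1) (y - z) = 0
      · exact Eventually.of_forall fun t h' => absurd h h'
      · filter_upwards [hcont (y - z) _ (mul_self_pos.2 h)] with t ht _
        exact ht
    filter_upwards [hev] with t ht
    by_cases htt : t = t0
    · rw [htt]
      exact ⟨x, hx, hw, Or.inl ⟨⟨y0, hy0, hy0x, huy0⟩, hlt⟩⟩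
    have hdiff : t - t0 ≠ 0 := sub_ne_zero.2 htt
    have hMzero : ∀ y ∈ M, ∀ z ∈ M, (u0 + t0 • u1) (y - z) = 0 := by
      intro y hy z hz
      rw [map_sub, (Finset.mem_filter.1 hy).2, (Finset.mem_filter.1 hz).2, sub_self]
    have hMval : ∀ y ∈ M, ∀ z ∈ M, (u0 + t • u1) (y - z) = (t - t0) * u1 (y - z) := by
      intro y hy z hz
      have h1 := hMzero y hy z hz
      simp only [LinearMap.add_apply, LinearMap.smul_apply, smul_eq_mul] at h1 ⊢
      linarith
    have hMinj : Set.InjOn (u0 + t • u1) (M : Set V) := by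
      intro y hy z hz hyz
      by_contra hne
      have h1 := hMval y hy z hz
      rw [map_sub (u0 + t • u1), hyz, sub_self] at h1
      exact mul_ne_zero hdiff (hinj y (Finset.mem_filter.1 hy).1 z (Finset.mem_filter.1 hz).1 hne)
        h1.symm
    obtain ⟨x', hx', hrank⟩ := exists_rank (u0 + t • u1) M hMinj (m - a) (by omega)
    have hsplit := card_split (u0 + t • u1) M hMinj hx'
    rw [hrank] at hsplit
    have hx'S : x' ∈ S := (Finset.mem_filter.1 hx').1
    have hx'v : (u0 + t0 • u1) x' = (u0 + t0 • u1) x := (Finset.mem_filter.1 hx').2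
    -- signs relative to `x'`
    have hout : ∀ y ∈ S, y ∉ M → 0 < (u0 + t0 • u1) (y - x') * (u0 + t • u1) (y - x') := by
      intro y hy hyM
      refine ht y hy x' hx'S fun h => hyM (Finset.mem_filter.2 ⟨hy, ?_⟩)
      rw [map_sub, hx'v] at h
      linarith
    have hlow : (S.filter fun y => (u0 + t • u1) y < (u0 + t • u1) x') =
        (S.filter fun y => (u0 + t0 • u1) y < (u0 + t0 • u1) x) ∪
        M.filter fun y => (u0 + t • u1) y < (u0 + t • u1) x' := by
      ext y
      rw [Finset.mem_union, Finset.mem_filter, Finset.mem_filter, Finset.mem_filter]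
      constructor
      · rintro ⟨hy, h⟩
        by_cases hyM : y ∈ M
        · exact Or.inr ⟨hyM, h⟩
        · left
          refine ⟨hy, ?_⟩
          have h1 := hout y hy hyM
          have h2 : (u0 + t • u1) (y - x') < 0 := by rw [map_sub]; linarith
          have h3 : (u0 + t0 • u1) (y - x') < 0 := by
            by_contra h4
            have := mul_nonpos_of_nonneg_of_nonpos (not_lt.1 h4) h2.le
            linarith
          rw [map_sub, hx'v] at h3
          linarith
      · rintro (⟨hy, h⟩ | ⟨hyM, h⟩)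
        · refine ⟨hy, ?_⟩
          have hyM : y ∉ M := fun h1 => absurd (Finset.mem_filter.1 h1).2 h.ne
          have h1 := hout y hy hyM
          have h3 : (u0 + t0 • u1) (y - x') < 0 := by rw [map_sub, hx'v]; linarith
          have h2 : (u0 + t • u1) (y - x') < 0 := by
            by_contra h4
            have := mul_nonpos_of_nonpos_of_nonneg h3.le (not_lt.1 h4)
            linarith
          rw [map_sub] at h2
          linarith
        · exact ⟨(Finset.mem_filter.1 hyM).1, h⟩
    have hlowc : (S.filter fun y => (u0 + t • u1) y < (u0 + t • u1) x').card = m := by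
      rw [hlow, Finset.card_union_of_disjoint, ← ha, hrank]
      · omega
      · rw [Finset.disjoint_left]
        intro y h1 h2
        exact absurd (Finset.mem_filter.1 (Finset.mem_filter.1 h2).1).2 (Finset.mem_filter.1 h1).2.ne
    have hupp : (S.filter fun y => (u0 + t • u1) x' < (u0 + t • u1) y) =
        (S.filter fun y => (u0 + t0 • u1) x < (u0 + t0 • u1) y) ∪
        M.filter fun y => (u0 + t • u1) x' < (u0 + t • u1) y := by
      ext y
      rw [Finset.mem_union, Finset.mem_filter, Finset.mem_filter, Finset.mem_filter]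
      constructor
      · rintro ⟨hy, h⟩
        by_cases hyM : y ∈ M
        · exact Or.inr ⟨hyM, h⟩
        · left
          refine ⟨hy, ?_⟩
          have h1 := hout y hy hyM
          have h2 : 0 < (u0 + t • u1) (y - x') := by rw [map_sub]; linarith
          have h3 : 0 < (u0 + t0 • u1) (y - x') := by
            by_contra h4
            have := mul_nonpos_of_nonpos_of_nonneg (not_lt.1 h4) h2.le
            linarith
          rw [map_sub, hx'v] at h3
          linarith
      · rintro (⟨hy, h⟩ | ⟨hyM, h⟩)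
        · refine ⟨hy, ?_⟩
          have hyM : y ∉ M := fun h1 => absurd (Finset.mem_filter.1 h1).2.symm h.ne
          have h1 := hout y hy hyM
          have h3 : 0 < (u0 + t0 • u1) (y - x') := by rw [map_sub, hx'v]; linarith
          have h2 : 0 < (u0 + t • u1) (y - x') := by
            by_contra h4
            have := mul_nonpos_of_nonneg_of_nonpos h3.le (not_lt.1 h4)
            linarith
          rw [map_sub] at h2
          linarith
        · exact ⟨(Finset.mem_filter.1 hyM).1, h⟩
    have huppc : (S.filter fun y => (u0 + t • u1) x' < (u0 + t • u1) y).card = m := by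
      rw [hupp, Finset.card_union_of_disjoint, ← hb]
      · omega
      · rw [Finset.disjoint_left]
        intro y h1 h2
        exact absurd (Finset.mem_filter.1 (Finset.mem_filter.1 h2).1).2.symm
          (Finset.mem_filter.1 h1).2.ne
    have halone' : ∀ y ∈ S, y ≠ x' → (u0 + t • u1) y ≠ (u0 + t • u1) x' := by
      intro y hy hyx' h
      by_cases hyM : y ∈ M
      · exact hyx' (hMinj hyM hx' h)
      · have h1 := hout y hy hyM
        rw [map_sub (u0 + t • u1), h, sub_self, mul_zero] at h1
        exact lt_irrefl _ h1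
    -- the direction of the block
    obtain ⟨z0, hz0, hz0x⟩ : ∃ z0 ∈ M, z0 ≠ x' := by
      by_cases h : y0 = x'
      · exact ⟨x, Finset.mem_filter.2 ⟨hx, rfl⟩, fun h' => hy0x (h.trans h'.symm)⟩
      · exact ⟨y0, Finset.mem_filter.2 ⟨hy0, huy0⟩, h⟩
    have hz0S : z0 ∈ S := (Finset.mem_filter.1 hz0).1
    obtain ⟨e, hepos, heu0, hedir⟩ : ∃ e : V, 0 < (u0 + t • u1) e ∧ (u0 + t0 • u1) e = 0 ∧
        ∀ y ∈ M, ∃ s : ℝ, y = x' + s • e := by
      have hpar : ∀ y ∈ M, ∃ s : ℝ, y - x' = s • (z0 - x') := by
        intro y hy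
        refine hgen z0 hz0S x' hx'S y (Finset.mem_filter.1 hy).1 x' hx'S hz0x ?_
        have h1 := hMzero z0 hz0 x' hx'
        have h2 := hMzero y hy x' hx'
        simp only [LinearMap.add_apply, LinearMap.smul_apply, smul_eq_mul] at h1 h2
        have h3 : u0 (z0 - x') = -(t0 * u1 (z0 - x')) := by linarith
        have h4 : u0 (y - x') = -(t0 * u1 (y - x')) := by linarith
        rw [h3, h4]
        ring
      rcases lt_or_gt_of_ne (halone' z0 hz0S hz0x) with h | h
      · refine ⟨x' - z0, by rw [map_sub]; linarith, hMzero x' hx' z0 hz0, fun y hy => ?_⟩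
        obtain ⟨s, hs⟩ := hpar y hy
        refine ⟨-s, ?_⟩
        rw [neg_smul, ← smul_neg, neg_sub, ← hs, add_sub_cancel]
      · refine ⟨z0 - x', by rw [map_sub]; linarith, hMzero z0 hz0 x' hx', fun y hy => ?_⟩
        obtain ⟨s, hs⟩ := hpar y hy
        exact ⟨s, by rw [← hs, add_sub_cancel]⟩
    have hray : ray S x' e = (M.filter fun y => (u0 + t • u1) x' < (u0 + t • u1) y).card := by
      rw [ray]
      congr 1
      ext y
      rw [Finset.mem_filter, Finset.mem_filter]
      constructor
      · rintro ⟨hy, s, hs, rfl⟩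
        refine ⟨Finset.mem_filter.2 ⟨hy, ?_⟩, ?_⟩
        · rw [map_add, map_smul, heu0, smul_zero, add_zero, hx'v]
        · rw [map_add (u0 + t • u1), map_smul, smul_eq_mul]
          have := mul_pos hs hepos
          linarith
      · rintro ⟨hyM, h⟩
        obtain ⟨s, rfl⟩ := hedir y hyM
        refine ⟨(Finset.mem_filter.1 hyM).1, s, ?_, rfl⟩
        rw [map_add (u0 + t • u1), map_smul, smul_eq_mul] at h
        have h2 : 0 < s * (u0 + t • u1) e := by linarith
        exact pos_of_mul_pos_left h2 hepos.le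
    have hray' : ray S x' (-e) = (M.filter fun y => (u0 + t • u1) y < (u0 + t • u1) x').card := by
      rw [ray]
      congr 1
      ext y
      rw [Finset.mem_filter, Finset.mem_filter]
      constructor
      · rintro ⟨hy, s, hs, rfl⟩
        refine ⟨Finset.mem_filter.2 ⟨hy, ?_⟩, ?_⟩
        · rw [smul_neg, ← neg_smul, map_add, map_smul, heu0, smul_zero, add_zero, hx'v]
        · rw [smul_neg, ← neg_smul, map_add (u0 + t • u1), map_smul, smul_eq_mul]
          have := mul_pos hs hepos
          linarith
      · rintro ⟨hyM, h⟩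
        obtain ⟨s, rfl⟩ := hedir y hyM
        refine ⟨(Finset.mem_filter.1 hyM).1, -s, ?_, by rw [smul_neg, neg_smul, neg_neg]⟩
        rw [map_add (u0 + t • u1), map_smul, smul_eq_mul] at h
        have h2 : 0 < (-s) * (u0 + t • u1) e := by linarith
        exact pos_of_mul_pos_left h2 hepos.le
    refine ⟨x', hx'S, ⟨hlowc.le, huppc.le⟩, Or.inr ⟨halone', e, ⟨hepos, u0 + t0 • u1, heu0,
      fun y hy => ?_⟩, ?_⟩⟩
    · by_cases hyM : y ∈ M
      · exact Or.inl (hedir y hyM)
      · exact Or.inr (hout y hy hyM)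
    · rw [hray, hray', hrank]
      omega
  · -- the median is alone
    have hev : ∀ᶠ t in 𝓝 t0, ∀ y ∈ S, y ≠ x →
        0 < (u0 + t0 • u1) (y - x) * (u0 + t • u1) (y - x) := by
      refine (Finset.eventually_all S).2 fun y hy => ?_
      by_cases h : y = x
      · exact Eventually.of_forall fun t h' => absurd h h'
      · have h1 : (u0 + t0 • u1) (y - x) ≠ 0 := by
          rw [map_sub]
          exact sub_ne_zero.2 (halone y hy h)
        filter_upwards [hcont (y - x) _ (mul_self_pos.2 h1)] with t ht _
        exact ht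
    filter_upwards [hev] with t ht
    exact pos_transfer hx hw hP ht

end Pool.Agent.MP_9673d9_co.Sweep
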