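import Pool.Agent.MP_9673d9_co.Crystal.Final

/-!
# Finite pieces of crystals with an odd number of points
-/

set_option autoImplicit false

open Finset

namespace Pool.Agent.MP_9673d9_co.Crystal

variable {V : Type*} [NormedAddCommGroup V] [NormedSpace ℝ V]

/-- many points of the set on a ray from `x` give a period -/
theorem many_period (K : Set V) (hK : Convex ℝ K) (Λ : AddSubgroup V) (F : Finset V)
    (S : Finset V) (hS : ∀ v ∈ S, v ∈ K ∧ ∃ a ∈ F, v - a ∈ Λ) (x : V) (hx : x ∈ S) (e : V)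
    (R : Finset V) (hRS : R ⊆ S) (hR : ∀ v ∈ R, ∃ t : ℝ, 0 < t ∧ v = x + t • e) (T : ℕ)
    (hT : 1 ≤ T) (hcard : F.card * (T + 1) ≤ R.card + 1) :
    ∃ γ : ℝ, 0 < γ ∧ γ • e ∈ Λ ∧ x + ((T : ℝ) * γ) • e ∈ K := by
  classical
  have hch : ∀ v, ∃ t : ℝ, v ∈ R → 0 < t ∧ v = x + t • e := by
    intro v
    by_cases hv : v ∈ R
    · obtain ⟨t, ht⟩ := hR v hv
      exact ⟨t, fun _ => ht⟩
    · exact ⟨0, fun h => absurd h hv⟩
  choose t ht using hch
  have hinj : Set.InjOn t (R : Set V) := by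
    intro v hv w hw hvw
    rw [(ht v hv).2, (ht w hw).2, hvw]
  have h0 : (0 : ℝ) ∉ R.image t := by
    intro h
    obtain ⟨v, hv, hv0⟩ := Finset.mem_image.1 h
    exact (ht v hv).1.ne' hv0
  refine line_period K hK Λ F x (hS x hx).1 e (insert 0 (R.image t)) ?_ T hT ?_
    ⟨0, Finset.mem_insert_self _ _⟩
  · intro s hs
    rcases Finset.mem_insert.1 hs with rfl | hs
    · rw [zero_smul, add_zero]
      exact ⟨le_rfl, hS x hx⟩
    · obtain ⟨v, hv, rfl⟩ := Finset.mem_image.1 hs
      rw [← (ht v hv).2]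
      exact ⟨(ht v hv).1.le, hS v (hRS hv)⟩
  · rw [Finset.card_insert_of_notMem h0, Finset.card_image_of_injOn hinj]
    exact hcard

/-- points of the crystal in the complementary sector of two vertices are not in the set -/
theorem no_mixing_core (u : V →ₗ[ℝ] ℝ) (S : Finset V) (hu : Set.InjOn u (S : Set V))
    (x : V) (hx : x ∈ S) (E : Finset V) (hE : ∀ e ∈ E, u e = 1)
    (hpos : ∀ w, x + w ∈ S → 0 < u w → (u w)⁻¹ • w ∈ convexHull ℝ (E : Set V))
    (hneg : ∀ w, x - w ∈ S → 0 < u w → (u w)⁻¹ • w ∈ convexHull ℝ (E : Set V))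
    (φ : V → V →ₗ[ℝ] ℝ) (hφ0 : ∀ e ∈ E, φ e e = 0) (hφ : ∀ e ∈ E, ∀ e' ∈ E, e' ≠ e → 0 < φ e e')
    (e e' : V) (he : e ∈ E) (he' : e' ∈ E) (hne : e ≠ e') (γ γ' : ℝ) (hγ : 0 < γ) (hγ' : 0 < γ')
    (hy : x + (γ • e - γ' • e') ∈ S) : False := by
  have hcone : ∀ f ∈ E, ∀ w, 0 < u w → (u w)⁻¹ • w ∈ convexHull ℝ (E : Set V) → 0 ≤ φ f w := by
    intro f hf w hw hwE
    have h3 := (hull_pos (φ f) E f hf (hφ0 f hf) (hφ f hf) _ hwE).1
    rw [map_smul, smul_eq_mul] at h3
    exact nonneg_of_mul_nonneg_right h3 (inv_pos.2 hw)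
  rcases lt_trichotomy (u (γ • e - γ' • e')) 0 with h | h | h
  · have h3 : 0 < u (-(γ • e - γ' • e')) := by
      rw [map_neg]
      linarith
    have h4 := hcone e' he' _ h3 (hneg _ (by rw [sub_neg_eq_add]; exact hy) h3)
    rw [map_neg, map_sub, map_smul, map_smul, hφ0 e' he', smul_zero, sub_zero, smul_eq_mul] at h4
    have := mul_pos hγ (hφ e' he' e he hne)
    linarith
  · have h3 : x + (γ • e - γ' • e') = x := hu hy hx (by rw [map_add, h, add_zero])
    rw [map_sub, map_smul, map_smul, hE e he, hE e' he', smul_eq_mul, smul_eq_mul, mul_one,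
      mul_one] at h
    have h4 : γ = γ' := by linarith
    rw [add_eq_left, h4, ← smul_sub] at h3
    rcases smul_eq_zero.1 h3 with h5 | h5
    · exact hγ'.ne' h5
    · exact hne (sub_eq_zero.1 h5)
  · have h4 := hcone e he _ h (hpos _ hy h)
    rw [map_sub, map_smul, map_smul, hφ0 e he, smul_zero, zero_sub, smul_eq_mul] at h4
    have := mul_pos hγ' (hφ e he e' he' hne.symm)
    linarith

/-- the midpoint of a point on the ray and a point on the opposite ray is in the crystal -/
theorem mid_mem (K : Set V) (hK : Convex ℝ K) (Λ : AddSubgroup V) (F : Finset V) (x : V)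
    (hxF : ∃ a ∈ F, x - a ∈ Λ) (v v' : V) (hv : v ∈ Λ) (hv' : v' ∈ Λ)
    (h1 : x + (2 : ℝ) • v ∈ K) (h2 : x - (2 : ℝ) • v' ∈ K) :
    x + (v - v') ∈ K ∧ ∃ a ∈ F, x + (v - v') - a ∈ Λ := by
  obtain ⟨a, ha, hxa⟩ := hxF
  refine ⟨?_, a, ha, ?_⟩
  · have h3 := hK h1 h2 (a := 1 / 2) (b := 1 / 2) (by norm_num) (by norm_num) (by norm_num)
    have h4 : (1 / 2 : ℝ) • (x + (2 : ℝ) • v) + (1 / 2 : ℝ) • (x - (2 : ℝ) • v') =
        x + (v - v') := by
      module
    rwa [h4] at h3
  · have h3 := Λ.add_mem hxa (Λ.sub_mem hv hv')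
    have h4 : x - a + (v - v') = x + (v - v') - a := by abel
    rwa [h4] at h3

/-- a finite set does not contain all the points of a longer sequence -/
theorem pigeon (X : Finset V) (y : ℕ → V) (hy : Function.Injective y) :
    ∃ j, j ≤ X.card ∧ y (j + 1) ∉ X := by
  classical
  by_contra h
  push Not at h
  have h1 : (Finset.range (X.card + 1)).card ≤ X.card := by
    refine Finset.card_le_card_of_injOn (fun j => y (j + 1)) (fun j hj => ?_) ?_
    · exact h j (Nat.lt_succ_iff.1 (Finset.mem_range.1 (Finset.mem_coe.1 hj)))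
    · intro i _ j _ hij
      exact Nat.succ_injective (hy hij)
  rw [Finset.card_range] at h1
  omega

/-- going a shorter way stays in the convex set -/
theorem shrink (K : Set V) (hK : Convex ℝ K) (x : V) (hx : x ∈ K) (e : V) (s t : ℝ) (hs : 0 ≤ s)
    (hst : s ≤ t) (h : x + t • e ∈ K) : x + s • e ∈ K := by
  rcases eq_or_lt_of_le (hs.trans hst) with h0 | h0
  · have : s = 0 := le_antisymm (by rw [h0]; exact hst) hs
    rw [this, zero_smul, add_zero]
    exact hx
  · have h3 := hK hx h (a := 1 - s / t) (b := s / t) (by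
      rw [sub_nonneg, div_le_one h0]
      exact hst) (div_nonneg hs h0.le) (by ring)
    have h4 : (1 - s / t) • x + (s / t) • (x + t • e) = x + s • e := by
      rw [smul_add, smul_smul, div_mul_cancel₀ _ h0.ne', sub_smul, one_smul]
      abel
    rwa [h4] at h3

/-- no vertex has a period to the right while another one has a period to the left -/
theorem no_mixing (u : V →ₗ[ℝ] ℝ) (K : Set V) (hK : Convex ℝ K) (Λ : AddSubgroup V) (F : Finset V)
    (S X : Finset V) (hS : ∀ v ∈ S, v ∈ K ∧ ∃ a ∈ F, v - a ∈ Λ)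
    (hX : ∀ v, v ∈ K → (∃ a ∈ F, v - a ∈ Λ) → v ∈ S ∨ v ∈ X) (hu : Set.InjOn u (S : Set V))
    (x : V) (hx : x ∈ S) (E : Finset V) (hE : ∀ e ∈ E, u e = 1)
    (hpos : ∀ w, x + w ∈ S → 0 < u w → (u w)⁻¹ • w ∈ convexHull ℝ (E : Set V))
    (hneg : ∀ w, x - w ∈ S → 0 < u w → (u w)⁻¹ • w ∈ convexHull ℝ (E : Set V))
    (φ : V → V →ₗ[ℝ] ℝ) (hφ0 : ∀ e ∈ E, φ e e = 0) (hφ : ∀ e ∈ E, ∀ e' ∈ E, e' ≠ e → 0 < φ e e')
    (T : ℕ) (hT : 2 * (X.card + 1) ≤ T)
    (e e' : V) (he : e ∈ E) (he' : e' ∈ E) (hne : e ≠ e') (γ γ' : ℝ) (hγ : 0 < γ) (hγ' : 0 < γ')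
    (hγΛ : γ • e ∈ Λ) (hγΛ' : γ' • e' ∈ Λ)
    (h : (x + ((T : ℝ) * γ) • e ∈ K ∧ x - (2 * γ') • e' ∈ K) ∨
      (x + (2 * γ) • e ∈ K ∧ x - ((T : ℝ) * γ') • e' ∈ K)) : False := by
  have hxK := (hS x hx).1
  have hjT : ∀ j : ℕ, j ≤ X.card → 2 * ((j + 1 : ℕ) : ℝ) ≤ T := by
    intro j hj
    have : 2 * (j + 1) ≤ T := by omega
    exact_mod_cast this
  rcases h with ⟨h1, h2⟩ | ⟨h1, h2⟩
  · have hinj : Function.Injective fun j : ℕ => x + (((j : ℝ) * γ) • e - γ' • e') := by
      intro i j hij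
      have h3 := congrArg u hij
      simp only [map_add, map_sub, map_smul, hE e he, hE e' he', smul_eq_mul, mul_one] at h3
      have h4 : (i : ℝ) * γ = j * γ := by linarith
      exact_mod_cast mul_right_cancel₀ hγ.ne' h4
    obtain ⟨j, hj, hjX⟩ := pigeon X _ hinj
    have hj' := hjT j hj
    have h3 := mid_mem K hK Λ F x (hS x hx).2 (((j + 1 : ℕ) : ℝ) • γ • e) (γ' • e')
      (by
        have := Λ.nsmul_mem hγΛ (j + 1)
        rwa [← Nat.cast_smul_eq_nsmul ℝ] at this) hγΛ'
      (by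
        rw [smul_smul, smul_smul]
        refine shrink K hK x hxK e _ _ (by positivity) ?_ h1
        exact mul_le_mul_of_nonneg_right hj' hγ.le)
      (by rwa [smul_smul])
    rw [smul_smul] at h3
    rcases hX _ h3.1 h3.2 with h4 | h4
    · exact no_mixing_core u S hu x hx E hE hpos hneg φ hφ0 hφ e e' he he' hne _ _
        (by positivity) hγ' h4
    · exact hjX h4
  · have hinj : Function.Injective fun j : ℕ => x + (γ • e - ((j : ℝ) * γ') • e') := by
      intro i j hij
      have h3 := congrArg u hij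
      simp only [map_add, map_sub, map_smul, hE e he, hE e' he', smul_eq_mul, mul_one] at h3
      have h4 : (i : ℝ) * γ' = j * γ' := by linarith
      exact_mod_cast mul_right_cancel₀ hγ'.ne' h4
    obtain ⟨j, hj, hjX⟩ := pigeon X _ hinj
    have hj' := hjT j hj
    have h3 := mid_mem K hK Λ F x (hS x hx).2 (γ • e) (((j + 1 : ℕ) : ℝ) • γ' • e') hγΛ
      (by
        have := Λ.nsmul_mem hγΛ' (j + 1)
        rwa [← Nat.cast_smul_eq_nsmul ℝ] at this)
      (by rwa [smul_smul])
      (by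
        rw [smul_smul, smul_smul, sub_eq_add_neg, ← smul_neg]
        refine shrink K hK x hxK (-e') _ _ (by positivity)
          (mul_le_mul_of_nonneg_right hj' hγ'.le) ?_
        rw [smul_neg, ← sub_eq_add_neg]
        exact h2)
    rw [smul_smul] at h3
    rcases hX _ h3.1 h3.2 with h4 | h4
    · exact no_mixing_core u S hu x hx E hE hpos hneg φ hφ0 hφ e e' he he' hne _ _
        hγ (by positivity) h4
    · exact hjX h4

theorem odd_case [FiniteDimensional ℝ V] (d : ℕ) (hd : Module.finrank ℝ V ≤ d)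
    (hd2 : 2 ≤ Module.finrank ℝ V) (K : Set V) (hK : Convex ℝ K) (Λ : AddSubgroup V)
    (F : Finset V) (S X : Finset V) (hS : ∀ v ∈ S, v ∈ K ∧ ∃ a ∈ F, v - a ∈ Λ)
    (hX : ∀ v, v ∈ K → (∃ a ∈ F, v - a ∈ Λ) → v ∈ S ∨ v ∈ X)
    (T : ℕ) (hTX : 2 * (X.card + 1) ≤ T) (hTd : 4 * d - 2 ≤ T)
    (hT2 : F.card ≤ 1 ∨ (d ≤ T ∧ 2 * d * T ≤ (T - d) * (T + 2 - 2 * d)))
    (C : ℕ) (hC : F.card * (T + 1) ≤ C + 2) (m : ℕ) (hm : 1 ≤ m) (hcard : S.card = 2 * m + 1) :
    ∃ φ : V →ₗ[ℝ] ℝ, φ ≠ 0 ∧ ∃ p ∈ S, ∃ q ∈ S, p ≠ q ∧ φ p = φ q ∧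
      (S.filter fun v => φ v < φ p).card ≤ (S.filter fun v => φ p < φ v).card + C ∧
      (S.filter fun v => φ p < φ v).card ≤ (S.filter fun v => φ v < φ p).card + C := by
  classical
  by_contra hno
  have hT : 2 ≤ T := by omega
  have hT1 : 1 ≤ T := by omega
  have hT2' : (2 : ℝ) ≤ T := by exact_mod_cast hT
  obtain ⟨u, hu⟩ := exists_inj S
  obtain ⟨x, hx, hmlow, hmup⟩ := exists_median u S hu m hcard
  set up := S.filter fun y => u x < u y with hup
  set low := S.filter fun y => u y < u x with hlow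
  let A : Finset V := up.image fun v => v - x
  let B : Finset V := low.image fun v => x - v
  have hAmem : ∀ w, w ∈ A ↔ x + w ∈ S ∧ 0 < u w := by
    intro w
    constructor
    · intro h
      obtain ⟨v, hv, rfl⟩ := Finset.mem_image.1 h
      have := Finset.mem_filter.1 hv
      rw [add_sub_cancel, map_sub]
      exact ⟨this.1, sub_pos.2 this.2⟩
    · rintro ⟨h1, h2⟩
      refine Finset.mem_image.2 ⟨x + w, Finset.mem_filter.2 ⟨h1, ?_⟩, add_sub_cancel_left _ _⟩
      rw [map_add]
      linarith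
  have hBmem : ∀ w, w ∈ B ↔ x - w ∈ S ∧ 0 < u w := by
    intro w
    constructor
    · intro h
      obtain ⟨v, hv, rfl⟩ := Finset.mem_image.1 h
      have := Finset.mem_filter.1 hv
      rw [sub_sub_cancel, map_sub]
      exact ⟨this.1, sub_pos.2 this.2⟩
    · rintro ⟨h1, h2⟩
      refine Finset.mem_image.2 ⟨x - w, Finset.mem_filter.2 ⟨h1, ?_⟩, sub_sub_cancel _ _⟩
      rw [map_sub]
      linarith
  have hAcard : A.card = m := by
    rw [← hmup]
    exact Finset.card_image_of_injective _ (sub_left_injective)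
  have hBcard : B.card = m := by
    rw [← hmlow]
    exact Finset.card_image_of_injective _ (sub_right_injective)
  let W : Finset V := (A ∪ B).image fun w => (u w)⁻¹ • w
  obtain ⟨E, hEW, hWE, hEmin⟩ := exists_vertices W
  have huW : ∀ w ∈ W, u w = 1 := by
    intro w hw
    obtain ⟨v, hv, rfl⟩ := Finset.mem_image.1 hw
    have hv0 : 0 < u v := by
      rcases Finset.mem_union.1 hv with h | h
      · exact ((hAmem v).1 h).2
      · exact ((hBmem v).1 h).2
    rw [map_smul, smul_eq_mul, inv_mul_cancel₀ hv0.ne']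
  have hE : ∀ e ∈ E, u e = 1 := fun e he => huW e (hEW he)
  have hAW : ∀ w ∈ A, (u w)⁻¹ • w ∈ convexHull ℝ (E : Set V) := fun w hw =>
    hWE (Finset.mem_coe.2 (Finset.mem_image.2 ⟨w, Finset.mem_union_left _ hw, rfl⟩))
  have hBW : ∀ w ∈ B, (u w)⁻¹ • w ∈ convexHull ℝ (E : Set V) := fun w hw =>
    hWE (Finset.mem_coe.2 (Finset.mem_image.2 ⟨w, Finset.mem_union_right _ hw, rfl⟩))
  have hpos : ∀ w, x + w ∈ S → 0 < u w → (u w)⁻¹ • w ∈ convexHull ℝ (E : Set V) :=
    fun w h1 h2 => hAW w ((hAmem w).2 ⟨h1, h2⟩)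
  have hneg : ∀ w, x - w ∈ S → 0 < u w → (u w)⁻¹ • w ∈ convexHull ℝ (E : Set V) :=
    fun w h1 h2 => hBW w ((hBmem w).2 ⟨h1, h2⟩)
  obtain ⟨w0, hw0⟩ := Finset.card_pos.1 (by omega : 0 < A.card)
  have hEn : E.Nonempty := by
    rw [Finset.nonempty_iff_ne_empty]
    rintro rfl
    have := hAW w0 hw0
    simp at this
  -- at least two vertices
  have hE2 : 1 < E.card := by
    by_contra hle
    obtain ⟨e, he⟩ := hEn
    have hEe : E = {e} := by
      refine Finset.eq_singleton_iff_unique_mem.2 ⟨he, fun y hy => ?_⟩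
      by_contra hne
      exact hle (Finset.one_lt_card.2 ⟨y, hy, e, he, hne⟩)
    have hne : Submodule.span ℝ ({e} : Set V) < ⊤ := by
      rw [lt_top_iff_ne_top]
      intro h
      have h1 := finrank_span_le_card (R := ℝ) ({e} : Set V)
      rw [h, finrank_top] at h1
      simp at h1
      omega
    obtain ⟨φ, hφ, hφe⟩ := Submodule.exists_le_ker_of_lt_top _ hne
    have hφe0 : φ e = 0 := hφe (Submodule.mem_span_singleton_self e)
    have hline : ∀ w, 0 < u w → (u w)⁻¹ • w ∈ convexHull ℝ (E : Set V) → φ w = 0 := by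
      intro w hw h
      rw [hEe, Finset.coe_singleton, convexHull_singleton, Set.mem_singleton_iff] at h
      have h1 : w = u w • e := by
        rw [← h, smul_smul, mul_inv_cancel₀ hw.ne', one_smul]
      rw [h1, map_smul, hφe0, smul_zero]
    have hall : ∀ v ∈ S, φ v = φ x := by
      intro v hv
      rcases lt_trichotomy (u v) (u x) with h | h | h
      · have h1 : 0 < u (x - v) := by rw [map_sub]; linarith
        have h2 := hline (x - v) h1 (hneg _ (by rw [sub_sub_cancel]; exact hv) h1)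
        rw [map_sub] at h2
        linarith
      · rw [hu hv hx h]
      · have h1 : 0 < u (v - x) := by rw [map_sub]; linarith
        have h2 := hline (v - x) h1 (hpos _ (by rw [add_sub_cancel]; exact hv) h1)
        rw [map_sub] at h2
        linarith
    have hw1 := (hAmem w0).1 hw0
    refine hno ⟨φ, hφ, x, hx, x + w0, hw1.1, ?_, ?_, ?_, ?_⟩
    · intro h
      have : w0 = 0 := by
        have := congrArg (fun z => z - x) h
        simpa using this.symm
      rw [this, map_zero] at hw1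
      exact lt_irrefl _ hw1.2
    · exact (hall _ hw1.1).symm
    · have : (S.filter fun v => φ v < φ x) = ∅ := by
        refine Finset.filter_eq_empty_iff.2 fun v hv => ?_
        rw [hall v hv]
        exact lt_irrefl _
      rw [this, Finset.card_empty]
      exact Nat.zero_le _
    · have : (S.filter fun v => φ x < φ v) = ∅ := by
        refine Finset.filter_eq_empty_iff.2 fun v hv => ?_
        rw [hall v hv]
        exact lt_irrefl _
      rw [this, Finset.card_empty]
      exact Nat.zero_le _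
  have hE2' : ∀ e ∈ E, ∃ e' ∈ E, e' ≠ e := fun e _ => Finset.exists_mem_ne hE2 e
  have hch : ∀ e, ∃ φ : V →ₗ[ℝ] ℝ, e ∈ E → φ e = 0 ∧ ∀ e' ∈ E, e' ≠ e → 0 < φ e' := by
    intro e
    by_cases he : e ∈ E
    · obtain ⟨φ, h⟩ := exposing u E hE e he (hEmin e he)
      exact ⟨φ, fun _ => h⟩
    · exact ⟨0, fun h => absurd h he⟩
  choose φ hφ using hch
  have hφ0 : ∀ e ∈ E, φ e e = 0 := fun e he => (hφ e he).1
  have hφp : ∀ e ∈ E, ∀ e' ∈ E, e' ≠ e → 0 < φ e e' := fun e he => (hφ e he).2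
  have hcone : ∀ e ∈ E, ∀ w, 0 < u w → (u w)⁻¹ • w ∈ convexHull ℝ (E : Set V) →
      0 ≤ φ e w ∧ (φ e w ≤ 0 → w = u w • e) := by
    intro e he w hw hwE
    have h3 := hull_pos (φ e) E e he (hφ0 e he) (hφp e he) _ hwE
    rw [map_smul, smul_eq_mul] at h3
    have h4 := nonneg_of_mul_nonneg_right h3.1 (inv_pos.2 hw)
    refine ⟨h4, fun h5 => ?_⟩
    have h6 : φ e w = 0 := le_antisymm h5 h4
    have h7 := h3.2 (by rw [h6, mul_zero])
    rw [← h7, smul_smul, mul_inv_cancel₀ hw.ne', one_smul]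
  -- each vertex has a period on one of the two sides
  have hdich : ∀ e ∈ E, (∃ γ : ℝ, 0 < γ ∧ γ • e ∈ Λ ∧ x + ((T : ℝ) * γ) • e ∈ K) ∨
      (∃ γ : ℝ, 0 < γ ∧ γ • e ∈ Λ ∧ x - ((T : ℝ) * γ) • e ∈ K) := by
    intro e he
    have hupφ : ∀ v ∈ up, φ e x ≤ φ e v ∧ (φ e v ≤ φ e x → ∃ t : ℝ, 0 < t ∧ v = x + t • e) := by
      intro v hv
      have hv' := Finset.mem_filter.1 hv
      have h1 : 0 < u (v - x) := by
        rw [map_sub]
        exact sub_pos.2 hv'.2
      have h2 := hcone e he (v - x) h1 (hpos _ (by rw [add_sub_cancel]; exact hv'.1) h1)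
      rw [map_sub] at h2
      refine ⟨by linarith [h2.1], fun h3 => ⟨u (v - x), h1, ?_⟩⟩
      have h4 := h2.2 (by linarith)
      rw [← h4, add_sub_cancel]
    have hlowφ : ∀ v ∈ low, φ e v ≤ φ e x ∧
        (φ e x ≤ φ e v → ∃ t : ℝ, 0 < t ∧ v = x + t • (-e)) := by
      intro v hv
      have hv' := Finset.mem_filter.1 hv
      have h1 : 0 < u (x - v) := by
        rw [map_sub]
        exact sub_pos.2 hv'.2
      have h2 := hcone e he (x - v) h1 (hneg _ (by rw [sub_sub_cancel]; exact hv'.1) h1)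
      rw [map_sub] at h2
      refine ⟨by linarith [h2.1], fun h3 => ⟨u (x - v), h1, ?_⟩⟩
      have h4 := h2.2 (by linarith)
      rw [smul_neg, ← sub_eq_add_neg, ← h4, sub_sub_cancel]
    have h1 : (S.filter fun v => φ e x < φ e v) = up.filter fun v => φ e x < φ e v := by
      ext v
      simp only [hup, Finset.mem_filter]
      constructor
      · rintro ⟨h2, h3⟩
        refine ⟨⟨h2, ?_⟩, h3⟩
        rcases lt_trichotomy (u v) (u x) with h | h | h
        · exact absurd h3 (not_lt.2 (hlowφ v (Finset.mem_filter.2 ⟨h2, h⟩)).1)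
        · rw [hu h2 hx h] at h3
          exact absurd h3 (lt_irrefl _)
        · exact h
      · rintro ⟨⟨h2, -⟩, h3⟩
        exact ⟨h2, h3⟩
    have h2 : (S.filter fun v => φ e v < φ e x) = low.filter fun v => φ e v < φ e x := by
      ext v
      simp only [hlow, Finset.mem_filter]
      constructor
      · rintro ⟨h2, h3⟩
        refine ⟨⟨h2, ?_⟩, h3⟩
        rcases lt_trichotomy (u v) (u x) with h | h | h
        · exact h
        · rw [hu h2 hx h] at h3
          exact absurd h3 (lt_irrefl _)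
        · exact absurd h3 (not_lt.2 (hupφ v (Finset.mem_filter.2 ⟨h2, h⟩)).1)
      · rintro ⟨⟨h2, -⟩, h3⟩
        exact ⟨h2, h3⟩
    have h3 := Finset.card_filter_add_card_filter_not (s := up) (fun v => φ e x < φ e v)
    have h4 := Finset.card_filter_add_card_filter_not (s := low) (fun v => φ e v < φ e x)
    rw [← h1, hmup] at h3
    rw [← h2, hmlow] at h4
    -- the second point of the plane
    obtain ⟨e', he', hne'⟩ := hE2' e he
    have hφne : φ e ≠ 0 := by
      intro h
      have := hφp e he e' he' hne'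
      rw [h] at this
      exact lt_irrefl _ this
    have hq : ∃ q ∈ S, x ≠ q ∧ φ e x = φ e q := by
      obtain ⟨w, hw, hwe⟩ := Finset.mem_image.1 (hEW he)
      have hwpos : 0 < u w := by
        rcases Finset.mem_union.1 hw with h | h
        · exact ((hAmem w).1 h).2
        · exact ((hBmem w).1 h).2
      have hw0' : w ≠ 0 := by
        rintro rfl
        rw [map_zero] at hwpos
        exact lt_irrefl _ hwpos
      have hφw : φ e w = 0 := by
        have : w = u w • e := by
          rw [← hwe]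
          change w = u w • (u w)⁻¹ • w
          rw [smul_smul, mul_inv_cancel₀ hwpos.ne', one_smul]
        rw [this, map_smul, hφ0 e he, smul_zero]
      rcases Finset.mem_union.1 hw with h | h
      · refine ⟨x + w, ((hAmem w).1 h).1, fun h5 => hw0' ?_, by rw [map_add, hφw, add_zero]⟩
        have := congrArg (fun z => z - x) h5
        simpa using this.symm
      · refine ⟨x - w, ((hBmem w).1 h).1, fun h5 => hw0' ?_, by rw [map_sub, hφw, sub_zero]⟩
        have := congrArg (fun z => x - z) h5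
        simpa using this.symm
    obtain ⟨q, hq, hxq, hφq⟩ := hq
    have h5 : ¬ ((S.filter fun v => φ e v < φ e x).card ≤
        (S.filter fun v => φ e x < φ e v).card + C ∧
        (S.filter fun v => φ e x < φ e v).card ≤ (S.filter fun v => φ e v < φ e x).card + C) :=
      fun h => hno ⟨φ e, hφne, x, hx, q, hq, hxq, hφq, h.1, h.2⟩
    by_cases h6 : C + 1 ≤ (up.filter fun v => ¬ φ e x < φ e v).card
    · left
      refine many_period K hK Λ F S hS x hx e (up.filter fun v => ¬ φ e x < φ e v) ?_ ?_ T hT1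
        (by omega)
      · exact (Finset.filter_subset _ _).trans (Finset.filter_subset _ _)
      · intro v hv
        obtain ⟨hv1, hv2⟩ := Finset.mem_filter.1 hv
        exact (hupφ v hv1).2 (not_lt.1 hv2)
    · by_cases h7 : C + 1 ≤ (low.filter fun v => ¬ φ e v < φ e x).card
      · right
        obtain ⟨γ, hγ, hγΛ, hγK⟩ := many_period K hK Λ F S hS x hx (-e)
          (low.filter fun v => ¬ φ e v < φ e x)
          ((Finset.filter_subset _ _).trans (Finset.filter_subset _ _)) (fun v hv => by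
            obtain ⟨hv1, hv2⟩ := Finset.mem_filter.1 hv
            exact (hlowφ v hv1).2 (not_lt.1 hv2)) T hT1 (by omega)
        refine ⟨γ, hγ, ?_, ?_⟩
        · rw [smul_neg] at hγΛ
          have := Λ.neg_mem hγΛ
          rwa [neg_neg] at this
        · rw [smul_neg, ← sub_eq_add_neg] at hγK
          exact hγK
      · exfalso
        apply h5
        constructor <;> omega
  have hxK := (hS x hx).1
  obtain ⟨a0, ha0, hxa0⟩ := (hS x hx).2
  have hmix := no_mixing u K hK Λ F S X hS hX hu x hx E hE hpos hneg φ hφ0 hφp T hTX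
  have hF1 : F.card ≤ 1 → ∀ a ∈ F, a = a0 := fun h a ha => Finset.card_le_one.1 h a ha a0 ha0
  by_cases hplus : ∃ e ∈ E, ∃ γ : ℝ, 0 < γ ∧ γ • e ∈ Λ ∧ x + ((T : ℝ) * γ) • e ∈ K
  · -- all periods are to the right
    obtain ⟨e0, he0, γ0, hγ0, hγ0Λ, hγ0K⟩ := hplus
    have hall : ∀ e ∈ E, ∃ γ : ℝ, 0 < γ ∧ γ • e ∈ Λ ∧ x + ((T : ℝ) * γ) • e ∈ K := by
      intro e he
      by_cases hee : e = e0
      · rw [hee]
        exact ⟨γ0, hγ0, hγ0Λ, hγ0K⟩
      · rcases hdich e he with h | ⟨γ, hγ, hγΛ, hγK⟩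
        · exact h
        · exfalso
          refine hmix e0 e he0 he (Ne.symm hee) γ0 γ hγ0 hγ hγ0Λ hγΛ (Or.inl ⟨hγ0K, ?_⟩)
          have h1 : x + ((T : ℝ) * γ) • (-e) ∈ K := by
            rw [smul_neg, ← sub_eq_add_neg]
            exact hγK
          have h2 := shrink K hK x hxK (-e) (2 * γ) _ (by positivity)
            (mul_le_mul_of_nonneg_right hT2' hγ.le) h1
          rwa [smul_neg, ← sub_eq_add_neg] at h2
    have hch : ∀ e, ∃ γ : ℝ, e ∈ E → 0 < γ ∧ γ • e ∈ Λ ∧ x + ((T : ℝ) * γ) • e ∈ K := by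
      intro e
      by_cases he : e ∈ E
      · obtain ⟨γ, h⟩ := hall e he
        exact ⟨γ, fun _ => h⟩
      · exact ⟨0, fun h => absurd h he⟩
    choose γ hγ using hch
    have hfin := final u E hE hEn {v | x + v ∈ K} ?_ ?_ Λ (fun v => ∃ a ∈ F, x + v - a ∈ Λ)
      ?_ ?_ d hd T hT hTd ?_ γ (fun e he => (hγ e he).1) (fun e he => (hγ e he).2.1)
      (fun e he => (hγ e he).2.2) ?_ A B (X.image fun v => v - x) ?_ ?_ ?_ hBW
    · omega
    · exact hK.translate_preimage_right x
    · change x + 0 ∈ K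
      rw [add_zero]
      exact hxK
    · exact ⟨a0, ha0, by rw [add_zero]; exact hxa0⟩
    · rintro v l hl ⟨a, ha, h⟩
      refine ⟨a, ha, ?_⟩
      have := Λ.add_mem h hl
      have h2 : x + v - a + l = x + (v + l) - a := by abel
      rwa [h2] at this
    · rcases hT2 with h | h
      · left
        rintro v ⟨a, ha, h1⟩
        rw [hF1 h a ha] at h1
        have := Λ.sub_mem h1 hxa0
        have h2 : x + v - a0 - (x - a0) = v := by abel
        rwa [h2] at this
      · exact Or.inr h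
    · intro e he h
      obtain ⟨e', he', hne'⟩ := hE2' e he
      refine hmix e' e he' he hne' (γ e') (γ e) (hγ e' he').1 (hγ e he).1 (hγ e' he').2.1
        (hγ e he).2.1 (Or.inl ⟨(hγ e' he').2.2, ?_⟩)
      change x + -((2 * γ e) • e) ∈ K at h
      rwa [← sub_eq_add_neg] at h
    · intro w h1 h2 h3
      rcases hX _ h2 h3 with h4 | h4
      · exact Finset.mem_union_left _ ((hAmem w).2 ⟨h4, h1⟩)
      · exact Finset.mem_union_right _ (Finset.mem_image.2 ⟨x + w, h4, add_sub_cancel_left _ _⟩)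
    · have := Finset.card_image_le (s := X) (f := fun v => v - x)
      omega
    · intro w hw
      obtain ⟨h1, h2⟩ := (hBmem w).1 hw
      have h3 := hS _ h1
      rw [sub_eq_add_neg] at h3
      exact ⟨h2, h3.1, h3.2⟩
  · -- all periods are to the left
    have hall : ∀ e ∈ E, ∃ γ : ℝ, 0 < γ ∧ γ • e ∈ Λ ∧ x - ((T : ℝ) * γ) • e ∈ K := by
      intro e he
      rcases hdich e he with h | h
      · exact absurd ⟨e, he, h⟩ hplus
      · exact h
    have hch : ∀ e, ∃ γ : ℝ, e ∈ E → 0 < γ ∧ γ • e ∈ Λ ∧ x - ((T : ℝ) * γ) • e ∈ K := by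
      intro e
      by_cases he : e ∈ E
      · obtain ⟨γ, h⟩ := hall e he
        exact ⟨γ, fun _ => h⟩
      · exact ⟨0, fun h => absurd h he⟩
    choose γ hγ using hch
    have hfin := final u E hE hEn {v | x - v ∈ K} ?_ ?_ Λ (fun v => ∃ a ∈ F, x - v - a ∈ Λ)
      ?_ ?_ d hd T hT hTd ?_ γ (fun e he => (hγ e he).1) (fun e he => (hγ e he).2.1)
      (fun e he => (hγ e he).2.2) ?_ B A (X.image fun v => x - v) ?_ ?_ ?_ hAW
    · omega
    · intro v hv w hw a b ha hb hab
      change x - (a • v + b • w) ∈ K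
      have h1 := hK hv hw ha hb hab
      have h2 : a • (x - v) + b • (x - w) = x - (a • v + b • w) := by
        rw [smul_sub, smul_sub]
        have h3 : a • x + b • x = x := by rw [← add_smul, hab, one_smul]
        calc a • x - a • v + (b • x - b • w) = (a • x + b • x) - (a • v + b • w) := by abel
          _ = _ := by rw [h3]
      rwa [h2] at h1
    · change x - 0 ∈ K
      rw [sub_zero]
      exact hxK
    · exact ⟨a0, ha0, by rw [sub_zero]; exact hxa0⟩
    · rintro v l hl ⟨a, ha, h⟩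
      refine ⟨a, ha, ?_⟩
      have := Λ.sub_mem h hl
      have h2 : x - v - a - l = x - (v + l) - a := by abel
      rwa [h2] at this
    · rcases hT2 with h | h
      · left
        rintro v ⟨a, ha, h1⟩
        rw [hF1 h a ha] at h1
        have := Λ.sub_mem hxa0 h1
        have h2 : x - a0 - (x - v - a0) = v := by abel
        rwa [h2] at this
      · exact Or.inr h
    · intro e he h
      obtain ⟨e', he', hne'⟩ := hE2' e he
      refine hmix e e' he he' hne'.symm (γ e) (γ e') (hγ e he).1 (hγ e' he').1 (hγ e he).2.1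
        (hγ e' he').2.1 (Or.inr ⟨?_, (hγ e' he').2.2⟩)
      change x - -((2 * γ e) • e) ∈ K at h
      rwa [sub_neg_eq_add] at h
    · intro w h1 h2 h3
      rcases hX _ h2 h3 with h4 | h4
      · exact Finset.mem_union_left _ ((hBmem w).2 ⟨h4, h1⟩)
      · exact Finset.mem_union_right _ (Finset.mem_image.2 ⟨x - w, h4, sub_sub_cancel _ _⟩)
    · have := Finset.card_image_le (s := X) (f := fun v => x - v)
      omega
    · intro w hw
      obtain ⟨h1, h2⟩ := (hAmem w).1 hw
      have h3 := hS _ h1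
      have h4 : x - -w = x + w := sub_neg_eq_add x w
      refine ⟨h2, ?_, ?_⟩
      · change x - -w ∈ K
        rw [h4]
        exact h3.1
      · rw [h4]
        exact h3.2

end Pool.Agent.MP_9673d9_co.Crystal
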