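import Pool.Agent.MP_9673d9_co.Crystal.Line

/-!
# Auxiliary facts on crystals and convex sets
-/

set_option autoImplicit false

open Finset

namespace Pool.Agent.MP_9673d9_co.Crystal

variable {V : Type*} [NormedAddCommGroup V] [NormedSpace ℝ V]

/-- many points of the set on a ray from `x` give a period -/
theorem many_period (K : Set V) (hK : Convex ℝ K) (Λ : AddSubgroup V) (F : Finset V)
    (S : Finset V) (hS : ∀ v ∈ S, v ∈ K ∧ ∃ a ∈ F, v - a ∈ Λ) (x : V) (hx : x ∈ S) (e : V)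
    (R : Finset V) (hRS : R ⊆ S) (hR : ∀ v ∈ R, ∃ t : ℝ, 0 < t ∧ v = x + t • e) (T : ℕ)
    (hT : 1 ≤ T) (hcard : F.card * (T + 1) ≤ R.card + 1) :
    ∃ γ : ℝ, 0 < γ ∧ γ • e ∈ Λ ∧ x + ((T : ℝ) * γ) • e ∈ K := by
  classical
  have hch : ∀ v, ∃ t : ℝ, v ∈ R → 0 < t ∧ v = x + t • e := by
    intro v
    by_cases hv : v ∈ R
    · obtain ⟨t, ht⟩ := hR v hv
      exact ⟨t, fun _ => ht⟩
    · exact ⟨0, fun h => absurd h hv⟩
  choose t ht using hch
  have hinj : Set.InjOn t (R : Set V) := by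
    intro v hv w hw hvw
    rw [(ht v hv).2, (ht w hw).2, hvw]
  have h0 : (0 : ℝ) ∉ R.image t := by
    intro h
    obtain ⟨v, hv, hv0⟩ := Finset.mem_image.1 h
    exact (ht v hv).1.ne' hv0
  refine line_period K hK Λ F x (hS x hx).1 e (insert 0 (R.image t)) ?_ T hT ?_
    ⟨0, Finset.mem_insert_self _ _⟩
  · intro s hs
    rcases Finset.mem_insert.1 hs with rfl | hs
    · rw [zero_smul, add_zero]
      exact ⟨le_rfl, hS x hx⟩
    · obtain ⟨v, hv, rfl⟩ := Finset.mem_image.1 hs
      rw [← (ht v hv).2]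
      exact ⟨(ht v hv).1.le, hS v (hRS hv)⟩
  · rw [Finset.card_insert_of_notMem h0, Finset.card_image_of_injOn hinj]
    exact hcard

/-- the midpoint of a point on the ray and a point on the opposite ray is in the crystal -/
theorem mid_mem (K : Set V) (hK : Convex ℝ K) (Λ : AddSubgroup V) (F : Finset V) (x : V)
    (hxF : ∃ a ∈ F, x - a ∈ Λ) (v v' : V) (hv : v ∈ Λ) (hv' : v' ∈ Λ)
    (h1 : x + (2 : ℝ) • v ∈ K) (h2 : x - (2 : ℝ) • v' ∈ K) :
    x + (v - v') ∈ K ∧ ∃ a ∈ F, x + (v - v') - a ∈ Λ := by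
  obtain ⟨a, ha, hxa⟩ := hxF
  refine ⟨?_, a, ha, ?_⟩
  · have h3 := hK h1 h2 (a := 1 / 2) (b := 1 / 2) (by norm_num) (by norm_num) (by norm_num)
    have h4 : (1 / 2 : ℝ) • (x + (2 : ℝ) • v) + (1 / 2 : ℝ) • (x - (2 : ℝ) • v') =
        x + (v - v') := by
      module
    rwa [h4] at h3
  · have h3 := Λ.add_mem hxa (Λ.sub_mem hv hv')
    have h4 : x - a + (v - v') = x + (v - v') - a := by abel
    rwa [h4] at h3

omit [NormedAddCommGroup V] [NormedSpace ℝ V] in
/-- a finite set does not contain all the points of a longer sequence -/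
theorem pigeon (X : Finset V) (y : ℕ → V) (hy : Function.Injective y) :
    ∃ j, j ≤ X.card ∧ y (j + 1) ∉ X := by
  classical
  by_contra h
  push Not at h
  have h1 : (Finset.range (X.card + 1)).card ≤ X.card := by
    refine Finset.card_le_card_of_injOn (fun j => y (j + 1)) (fun j hj => ?_) ?_
    · exact h j (Nat.lt_succ_iff.1 (Finset.mem_range.1 (Finset.mem_coe.1 hj)))
    · intro i _ j _ hij
      exact Nat.succ_injective (hy hij)
  rw [Finset.card_range] at h1
  omega

/-- going a shorter way stays in the convex set -/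
theorem shrink (K : Set V) (hK : Convex ℝ K) (x : V) (hx : x ∈ K) (e : V) (s t : ℝ) (hs : 0 ≤ s)
    (hst : s ≤ t) (h : x + t • e ∈ K) : x + s • e ∈ K := by
  rcases eq_or_lt_of_le (hs.trans hst) with h0 | h0
  · have : s = 0 := le_antisymm (by rw [h0]; exact hst) hs
    rw [this, zero_smul, add_zero]
    exact hx
  · have h3 := hK hx h (a := 1 - s / t) (b := s / t) (by
      rw [sub_nonneg, div_le_one h0]
      exact hst) (div_nonneg hs h0.le) (by ring)
    have h4 : (1 - s / t) • x + (s / t) • (x + t • e) = x + s • e := by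
      rw [smul_add, smul_smul, div_mul_cancel₀ _ h0.ne', sub_smul, one_smul]
      abel
    rwa [h4] at h3

end Pool.Agent.MP_9673d9_co.Crystal
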