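import Pool.Agent.MP_9673d9_co.Crystal.Pencil
import Pool.Agent.MP_9673d9_co.Crystal.Tools

/-!
# Finite pieces of crystals with an odd number of points, by the sweep
-/

set_option autoImplicit false

open Finset

namespace Pool.Agent.MP_9673d9_co.Sweep

open Pool.Agent.MP_9673d9_co.Crystal

variable {V : Type*} [NormedAddCommGroup V] [NormedSpace ℝ V]

theorem ray_smul (S : Finset V) (x e : V) (c : ℝ) (hc : 0 < c) : ray S x (c • e) = ray S x e := by
  classical
  rw [ray, ray]
  congr 1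
  ext y
  rw [Finset.mem_filter, Finset.mem_filter]
  constructor
  · rintro ⟨hy, t, ht, rfl⟩
    exact ⟨hy, t * c, mul_pos ht hc, by rw [smul_smul]⟩
  · rintro ⟨hy, t, ht, rfl⟩
    exact ⟨hy, t / c, div_pos ht hc, by rw [smul_smul, div_mul_cancel₀ _ hc.ne']⟩

/-- the two directions of a mixed median point are not parallel -/
theorem not_parallel {S : Finset V} {C : ℕ} {x e f : V} {u : V →ₗ[ℝ] ℝ} (hue : 0 < u e)
    (huf : u f < 0) (he : C + ray S x (-e) < ray S x e) (hf : C + ray S x (-f) < ray S x f)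
    (t : ℝ) : f ≠ t • e := by
  rintro rfl
  rw [map_smul, smul_eq_mul] at huf
  have ht : t < 0 := by
    by_contra h
    have := mul_nonneg (not_lt.1 h) hue.le
    linarith
  have h1 : ray S x (t • e) = ray S x (-e) := by
    rw [← ray_smul S x (-e) (-t) (by linarith), neg_smul_neg]
  have h2 : ray S x (-(t • e)) = ray S x e := by
    rw [← neg_smul, ray_smul S x e (-t) (by linarith)]
  omega

/-- the sectors of a mixed median point are empty -/
theorem sector_empty {S : Finset V} {C : ℕ} {x e f : V} {u : V →ₗ[ℝ] ℝ}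
    (hEe : Exposed S x u e) (hEf : Exposed S x (-u) f) (he : C + ray S x (-e) < ray S x e)
    (hf : C + ray S x (-f) < ray S x f) (a b : ℝ) (hab : 0 < a * b) : x + (a • e + b • f) ∉ S := by
  intro hy
  obtain ⟨hue, φ, hφe, hφ⟩ := hEe
  obtain ⟨huf, ψ, hψf, hψ⟩ := hEf
  have huf' : u f < 0 := by simpa using huf
  have hpar := not_parallel hue huf' he hf
  have hpar' : ∀ t : ℝ, e ≠ t • f := by
    intro t h
    by_cases ht : t = 0
    · rw [ht, zero_smul] at h
      rw [h, map_zero] at hue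
      exact lt_irrefl _ hue
    · exact hpar t⁻¹ (by rw [h, smul_smul, inv_mul_cancel₀ ht, one_smul])
  -- signs of the functionals
  have h1 : φ f < 0 := by
    obtain ⟨s, hs, hsS⟩ := exists_of_ray_pos (by omega : 0 < ray S x f)
    rcases hφ _ hsS with ⟨t, ht⟩ | h
    · exfalso
      rw [add_right_inj] at ht
      refine hpar (s⁻¹ * t) ?_
      rw [← smul_smul, ← ht, smul_smul, inv_mul_cancel₀ hs.ne', one_smul]
    · rw [add_sub_cancel_left, map_smul, map_smul, smul_eq_mul, smul_eq_mul] at h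
      by_contra h2
      have h3 : s * φ f * (s * u f) = (s ^ 2 * φ f) * u f := by ring
      rw [h3] at h
      have := mul_nonpos_of_nonneg_of_nonpos (mul_nonneg (sq_nonneg s) (not_lt.1 h2)) huf'.le
      linarith
  have h2 : ψ e < 0 := by
    obtain ⟨s, hs, hsS⟩ := exists_of_ray_pos (by omega : 0 < ray S x e)
    rcases hψ _ hsS with ⟨t, ht⟩ | h
    · exfalso
      rw [add_right_inj] at ht
      refine hpar' (s⁻¹ * t) ?_
      rw [← smul_smul, ← ht, smul_smul, inv_mul_cancel₀ hs.ne', one_smul]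
    · rw [add_sub_cancel_left, map_smul, map_smul, smul_eq_mul, smul_eq_mul,
        LinearMap.neg_apply] at h
      by_contra h2
      have h3 : s * ψ e * (s * -u e) = -((s ^ 2 * ψ e) * u e) := by ring
      rw [h3] at h
      have := mul_nonneg (mul_nonneg (sq_nonneg s) (not_lt.1 h2)) hue.le
      linarith
  have ha : a ≠ 0 := by
    rintro rfl
    simp at hab
  have hb : b ≠ 0 := by
    rintro rfl
    simp at hab
  have h3 : 0 < φ (x + (a • e + b • f) - x) * u (x + (a • e + b • f) - x) := by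
    rcases hφ _ hy with ⟨t, ht⟩ | h
    · exfalso
      rw [add_right_inj] at ht
      refine hpar (b⁻¹ * (t - a)) ?_
      have h4 : b • f = (t - a) • e := by
        rw [sub_smul, ← ht]
        abel
      rw [← smul_smul, ← h4, smul_smul, inv_mul_cancel₀ hb, one_smul]
    · exact h
  have h4 : 0 < ψ (x + (a • e + b • f) - x) * (-u) (x + (a • e + b • f) - x) := by
    rcases hψ _ hy with ⟨t, ht⟩ | h
    · exfalso
      rw [add_right_inj] at ht
      refine hpar' (a⁻¹ * (t - b)) ?_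
      have h4 : a • e = (t - b) • f := by
        rw [sub_smul, ← ht]
        abel
      rw [← smul_smul, ← h4, smul_smul, inv_mul_cancel₀ ha, one_smul]
    · exact h
  rw [add_sub_cancel_left] at h3 h4
  have h5 : φ (a • e + b • f) = b * φ f := by
    rw [map_add, map_smul, map_smul, hφe, smul_zero, zero_add, smul_eq_mul]
  have h6 : ψ (a • e + b • f) = a * ψ e := by
    rw [map_add, map_smul, map_smul, hψf, smul_zero, add_zero, smul_eq_mul]
  rw [h5] at h3
  rw [h6, LinearMap.neg_apply] at h4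
  have h7 : 0 < (b * φ f * u (a • e + b • f)) * (a * ψ e * -u (a • e + b • f)) := mul_pos h3 h4
  have h8 : (b * φ f * u (a • e + b • f)) * (a * ψ e * -u (a • e + b • f)) =
      -((a * b) * (φ f * ψ e) * (u (a • e + b • f)) ^ 2) := by ring
  rw [h8] at h7
  have h9 : 0 < φ f * ψ e := mul_pos_of_neg_of_neg h1 h2
  have : 0 ≤ (a * b) * (φ f * ψ e) * (u (a • e + b • f)) ^ 2 := by positivity
  linarith

/-- a set with large imbalances is not collinear -/
theorem noncol_of_unbal (hd2 : 2 ≤ Module.finrank ℝ V) {S : Finset V} {C : ℕ} (hS : Unbal S C)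
    (hcard : 2 ≤ S.card) (x e : V) : ∃ y ∈ S, ∀ t : ℝ, y ≠ x + t • e := by
  classical
  by_contra hno
  push Not at hno
  have hne : Submodule.span ℝ ({e} : Set V) < ⊤ := by
    rw [lt_top_iff_ne_top]
    intro h
    have h1 := finrank_span_le_card (R := ℝ) ({e} : Set V)
    rw [h, finrank_top] at h1
    simp at h1
    omega
  obtain ⟨φ, hφ, hφe⟩ := Submodule.exists_le_ker_of_lt_top _ hne
  have hφe0 : φ e = 0 := hφe (Submodule.mem_span_singleton_self e)
  have hall : ∀ y ∈ S, φ y = φ x := by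
    intro y hy
    obtain ⟨t, rfl⟩ := hno y hy
    rw [map_add, map_smul, hφe0, smul_zero, add_zero]
  obtain ⟨p, hp, q, hq, hpq⟩ := Finset.one_lt_card.1 (by omega : 1 < S.card)
  have h1 : (S.filter fun y => φ y < φ p) = ∅ :=
    Finset.filter_eq_empty_iff.2 fun y hy => by
      rw [hall y hy, hall p hp]
      exact lt_irrefl _
  have h2 : (S.filter fun y => φ p < φ y) = ∅ :=
    Finset.filter_eq_empty_iff.2 fun y hy => by
      rw [hall y hy, hall p hp]
      exact lt_irrefl _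
  have h3 := hS φ hφ p hp q hq hpq ((hall p hp).trans (hall q hq).symm)
  rw [h1, h2, Finset.card_empty] at h3
  omega

theorem exists_of_not_unbal {S : Finset V} {C : ℕ} (h : ¬ Unbal S C) :
    ∃ φ : V →ₗ[ℝ] ℝ, φ ≠ 0 ∧ ∃ p ∈ S, ∃ q ∈ S, p ≠ q ∧ φ p = φ q ∧
      (S.filter fun v => φ v < φ p).card ≤ (S.filter fun v => φ p < φ v).card + C ∧
      (S.filter fun v => φ p < φ v).card ≤ (S.filter fun v => φ v < φ p).card + C := by
  rw [Unbal] at h
  push Not at h
  obtain ⟨φ, hφ, p, hp, q, hq, hpq, hφpq, h1, h2⟩ := h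
  exact ⟨φ, hφ, p, hp, q, hq, hpq, hφpq, by omega, by omega⟩

theorem odd_case2 (hd2 : 2 ≤ Module.finrank ℝ V) (K : Set V) (hK : Convex ℝ K)
    (Λ : AddSubgroup V)
    (F : Finset V) (S X : Finset V) (hS : ∀ v ∈ S, v ∈ K ∧ ∃ a ∈ F, v - a ∈ Λ)
    (hX : ∀ v, v ∈ K → (∃ a ∈ F, v - a ∈ Λ) → v ∈ S ∨ v ∈ X)
    (C : ℕ) (hC : F.card * (2 * X.card + 3) ≤ C + 2) (m : ℕ) (hm : 1 ≤ m)
    (hcard : S.card = 2 * m + 1) :
    ∃ φ : V →ₗ[ℝ] ℝ, φ ≠ 0 ∧ ∃ p ∈ S, ∃ q ∈ S, p ≠ q ∧ φ p = φ q ∧
      (S.filter fun v => φ v < φ p).card ≤ (S.filter fun v => φ p < φ v).card + C ∧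
      (S.filter fun v => φ p < φ v).card ≤ (S.filter fun v => φ v < φ p).card + C := by
  classical
  by_contra hno
  have hU : Unbal S C := by
    by_contra h
    exact hno (exists_of_not_unbal h)
  obtain ⟨x, u, hM, ⟨e, hEe, he⟩, ⟨f, hEf, hf⟩⟩ := mixed_exists hm hcard hU
    (noncol_of_unbal hd2 hU (by omega))
  have hx := hM.1
  have hxK := (hS x hx).1
  have hper : ∀ g : V, C + ray S x (-g) < ray S x g →
      ∃ γ : ℝ, 0 < γ ∧ γ • g ∈ Λ ∧ x + (((2 * (X.card + 1) : ℕ) : ℝ) * γ) • g ∈ K := by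
    intro g hg
    refine many_period K hK Λ F S hS x hx g (S.filter fun y => ∃ t : ℝ, 0 < t ∧ y = x + t • g)
      (Finset.filter_subset _ _) (fun v hv => (Finset.mem_filter.1 hv).2) _ (by omega) ?_
    have h1 : ray S x g = (S.filter fun y => ∃ t : ℝ, 0 < t ∧ y = x + t • g).card := by
      rw [ray]
    have h2 : 2 * (X.card + 1) + 1 = 2 * X.card + 3 := by ring
    rw [← h1, h2]
    omega
  obtain ⟨γ, hγ, hγΛ, hγK⟩ := hper e he
  obtain ⟨γ', hγ', hγΛ', hγK'⟩ := hper f hf
  have hinj : Function.Injective fun j : ℕ => x + (((j : ℝ) * γ) • e - (-γ') • f) := by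
    intro i j hij
    have h3 := congrArg u hij
    simp only [map_add, map_sub, map_smul, smul_eq_mul] at h3
    have h4 : (i : ℝ) * (γ * u e) = j * (γ * u e) := by linarith
    exact_mod_cast mul_right_cancel₀ (mul_pos hγ hEe.1).ne' h4
  obtain ⟨j, hj, hjX⟩ := pigeon X _ hinj
  have hj2 : 2 * ((j + 1 : ℕ) : ℝ) ≤ ((2 * (X.card + 1) : ℕ) : ℝ) := by
    have : 2 * (j + 1) ≤ 2 * (X.card + 1) := by omega
    exact_mod_cast this
  have hj3 : (2 : ℝ) ≤ ((2 * (X.card + 1) : ℕ) : ℝ) := by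
    have : 2 ≤ 2 * (X.card + 1) := by omega
    exact_mod_cast this
  have h3 := mid_mem K hK Λ F x (hS x hx).2 (((j + 1 : ℕ) : ℝ) • γ • e) ((-γ') • f)
    (by
      have := Λ.nsmul_mem hγΛ (j + 1)
      rwa [← Nat.cast_smul_eq_nsmul ℝ] at this)
    (by
      rw [neg_smul]
      exact Λ.neg_mem hγΛ')
    (by
      rw [smul_smul, smul_smul]
      exact shrink K hK x hxK e _ _ (by positivity) (mul_le_mul_of_nonneg_right hj2 hγ.le) hγK)
    (by
      rw [neg_smul, smul_neg, sub_neg_eq_add, smul_smul]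
      exact shrink K hK x hxK f _ _ (by positivity) (mul_le_mul_of_nonneg_right hj3 hγ'.le) hγK')
  rw [smul_smul] at h3
  rcases hX _ h3.1 h3.2 with h4 | h4
  · refine sector_empty hEe hEf he hf (((j + 1 : ℕ) : ℝ) * γ) γ' (by positivity) ?_
    rw [neg_smul, sub_neg_eq_add] at h4
    exact h4
  · exact hjX h4

end Pool.Agent.MP_9673d9_co.Sweep
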