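import Pool.Agent.MP_9673d9_co.Crystal.Mixed

/-!
# Generic pencils, and the main theorem of the sweep
-/

set_option autoImplicit false

open Finset Filter Topology

namespace Pool.Agent.MP_9673d9_co.Sweep

open Pool.Agent.MP_9673d9_co.Crystal

variable {V : Type*} [NormedAddCommGroup V] [NormedSpace ℝ V]

/-- a functional that does not vanish on finitely many given non-zero vectors -/
theorem exists_avoid (N : Finset V) (hN : ∀ v ∈ N, v ≠ 0) : ∃ u : V →ₗ[ℝ] ℝ, ∀ v ∈ N, u v ≠ 0 := by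
  obtain ⟨u, hu⟩ := Module.exists_dual_forall_apply_ne_zero (K := ℝ)
    (fun p : N => (p : V)) (fun p => hN p p.2)
  exact ⟨u, fun v hv => hu ⟨v, hv⟩⟩

/-- generic pencils -/
theorem exists_pencil (S : Finset V) : ∃ u0 u1 : V →ₗ[ℝ] ℝ,
    (∀ y ∈ S, ∀ z ∈ S, y ≠ z → u1 (y - z) ≠ 0) ∧
    ∀ y ∈ S, ∀ z ∈ S, ∀ y' ∈ S, ∀ z' ∈ S, y ≠ z →
      u0 (y - z) * u1 (y' - z') = u1 (y - z) * u0 (y' - z') → ∃ s : ℝ, y' - z' = s • (y - z) := by
  classical
  let D : Finset V := (S ×ˢ S).image fun p => p.1 - p.2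
  have hD : ∀ y ∈ S, ∀ z ∈ S, y - z ∈ D := fun y hy z hz =>
    Finset.mem_image.2 ⟨(y, z), Finset.mem_product.2 ⟨hy, hz⟩, rfl⟩
  obtain ⟨u0, hu0⟩ := exists_avoid (D.filter fun v => v ≠ 0) fun v hv => (Finset.mem_filter.1 hv).2
  let N : Finset V := (D ×ˢ D).image fun p => u0 p.1 • p.2 - u0 p.2 • p.1
  obtain ⟨u1, hu1⟩ := exists_avoid ((D ∪ N).filter fun v => v ≠ 0)
    fun v hv => (Finset.mem_filter.1 hv).2
  refine ⟨u0, u1, fun y hy z hz hyz => ?_, fun y hy z hz y' hy' z' hz' hyz h => ?_⟩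
  · exact hu1 _ (Finset.mem_filter.2 ⟨Finset.mem_union_left _ (hD y hy z hz), sub_ne_zero.2 hyz⟩)
  · have h0 : u0 (y - z) ≠ 0 :=
      hu0 _ (Finset.mem_filter.2 ⟨hD y hy z hz, sub_ne_zero.2 hyz⟩)
    have h1 : u0 (y - z) • (y' - z') - u0 (y' - z') • (y - z) = 0 := by
      by_contra hne
      apply hu1 (u0 (y - z) • (y' - z') - u0 (y' - z') • (y - z))
      · refine Finset.mem_filter.2 ⟨Finset.mem_union_right _ (Finset.mem_image.2
          ⟨(y - z, y' - z'), Finset.mem_product.2 ⟨hD y hy z hz, hD y' hy' z' hz'⟩, rfl⟩), hne⟩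
      · rw [map_sub, map_smul, map_smul, smul_eq_mul, smul_eq_mul, h]
        ring
    refine ⟨(u0 (y - z))⁻¹ * u0 (y' - z'), ?_⟩
    rw [← smul_smul, ← sub_eq_zero.1 h1, smul_smul, inv_mul_cancel₀ h0, one_smul]

/-- the main theorem of the sweep -/
theorem mixed_exists {S : Finset V} {m C : ℕ} (hm : 1 ≤ m) (hcard : S.card = 2 * m + 1)
    (hS : Unbal S C) (hcol : ∀ x e : V, ∃ y ∈ S, ∀ t : ℝ, y ≠ x + t • e) :
    ∃ x u, Med S m x u ∧ TypeP S C x u ∧ TypeP S C x (-u) := by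
  classical
  by_contra hno
  have hmix : ∀ x u, Med S m x u → ¬ (TypeP S C x u ∧ TypeP S C x (-u)) :=
    fun x u h1 h2 => hno ⟨x, u, h1, h2.1, h2.2⟩
  obtain ⟨u0, u1, hinj, hgen⟩ := exists_pencil S
  -- the functionals of the pencil do not vanish
  have hne : ∀ t : ℝ, u0 + t • u1 ≠ 0 := by
    intro t h
    obtain ⟨a, ha, b, hb, hab⟩ := Finset.one_lt_card.1 (by omega : 1 < S.card)
    obtain ⟨y, hy, hyl⟩ := hcol a (b - a)
    have hv : ∀ v : V, u0 v = -(t * u1 v) := by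
      intro v
      have := congrArg (fun f : V →ₗ[ℝ] ℝ => f v) h
      simp only [LinearMap.add_apply, LinearMap.smul_apply, smul_eq_mul, LinearMap.zero_apply]
        at this
      linarith
    obtain ⟨s, hs⟩ := hgen b hb a ha y hy a ha hab.symm (by rw [hv, hv]; ring)
    exact hyl s (by rw [← hs, add_sub_cancel])
  have hopen : IsOpen {t : ℝ | PosF S m C (u0 + t • u1)} := open_pos hcard u0 u1 hinj hgen
  have hopen' : IsOpen {t : ℝ | PosF S m C (-u0 + t • (-u1))} := by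
    refine open_pos hcard (-u0) (-u1) (fun y hy z hz hyz => ?_)
      fun y hy z hz y' hy' z' hz' hyz h => ?_
    · rw [LinearMap.neg_apply]
      exact neg_ne_zero.2 (hinj y hy z hz hyz)
    · refine hgen y hy z hz y' hy' z' hz' hyz ?_
      simp only [LinearMap.neg_apply, neg_mul_neg] at h
      exact h
  have hneg : ∀ t : ℝ, -u0 + t • (-u1) = -(u0 + t • u1) := by
    intro t
    rw [smul_neg, neg_add]
  have hcompl : {t : ℝ | PosF S m C (u0 + t • u1)}ᶜ = {t : ℝ | PosF S m C (-u0 + t • (-u1))} := by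
    ext t
    rw [Set.mem_compl_iff, Set.mem_ofPred_eq, Set.mem_ofPred_eq, hneg]
    constructor
    · intro h
      rcases pos_or_neg hm hcard hS hcol (u0 + t • u1) (hne t) with h1 | h1
      · exact absurd h1 h
      · exact h1
    · intro h h1
      exact not_both hcard hmix _ h1 h
  have hclopen : IsClopen {t : ℝ | PosF S m C (u0 + t • u1)} :=
    ⟨isOpen_compl_iff.1 (by rw [hcompl]; exact hopen'), hopen⟩
  -- far away the signs are those of `u1`
  obtain ⟨T, hT⟩ : ∃ T : ℝ, ∀ y ∈ S, ∀ z ∈ S, y ≠ z → |u0 (y - z)| < T * |u1 (y - z)| := by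
    obtain ⟨T, hT⟩ := (((S ×ˢ S).image fun p => |u0 (p.1 - p.2)| / |u1 (p.1 - p.2)|)).bddAbove
    refine ⟨T + 1, fun y hy z hz hyz => ?_⟩
    have h1 : |u0 (y - z)| / |u1 (y - z)| ≤ T := hT (Finset.mem_coe.2 (Finset.mem_image.2
      ⟨(y, z), Finset.mem_product.2 ⟨hy, hz⟩, rfl⟩))
    have h2 : 0 < |u1 (y - z)| := abs_pos.2 (hinj y hy z hz hyz)
    rw [div_le_iff₀ h2] at h1
    nlinarith
  have hfar : ∀ y ∈ S, ∀ z ∈ S, y ≠ z →
      0 < (u0 + T • u1) (y - z) * (-(u0 + (-T) • u1)) (y - z) := by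
    intro y hy z hz hyz
    have h1 := hT y hy z hz hyz
    have h2 : (u0 + T • u1) (y - z) * (-(u0 + (-T) • u1)) (y - z) =
        (T * u1 (y - z)) ^ 2 - (u0 (y - z)) ^ 2 := by
      simp only [LinearMap.add_apply, LinearMap.smul_apply, LinearMap.neg_apply, smul_eq_mul]
      ring
    rw [h2, sub_pos, sq_lt_sq, abs_mul]
    have h3 : |T| * |u1 (y - z)| ≥ T * |u1 (y - z)| :=
      mul_le_mul_of_nonneg_right (le_abs_self T) (abs_nonneg _)
    linarith
  have htrans : ∀ u u' : V →ₗ[ℝ] ℝ, (∀ y ∈ S, ∀ z ∈ S, y ≠ z → 0 < u (y - z) * u' (y - z)) →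
      PosF S m C u → PosF S m C u' := by
    rintro u u' hsign ⟨x, hx, hw, h⟩
    rcases h with ⟨⟨y, hy, hyx, huy⟩, -⟩ | ⟨-, hP⟩
    · exfalso
      have := hsign y hy x hx hyx
      rw [map_sub u, huy, sub_self, zero_mul] at this
      exact lt_irrefl _ this
    · exact pos_transfer hx hw hP fun y hy hyx => hsign y hy x hx hyx
  rcases isClopen_iff.1 hclopen with h | h
  · have h1 : PosF S m C (-(u0 + (-T) • u1)) := by
      rw [← hneg]
      have h2 : (-T) ∈ {t : ℝ | PosF S m C (-u0 + t • (-u1))} := by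
        rw [← hcompl, h]
        exact Set.notMem_empty _
      exact h2
    have h2 : T ∈ {t : ℝ | PosF S m C (u0 + t • u1)} :=
      htrans _ _ (fun y hy z hz hyz => by rw [mul_comm]; exact hfar y hy z hz hyz) h1
    rw [h] at h2
    exact h2
  · have h1 : T ∈ {t : ℝ | PosF S m C (u0 + t • u1)} := by rw [h]; exact Set.mem_univ _
    have h2 : (-T) ∈ {t : ℝ | PosF S m C (u0 + t • u1)} := by rw [h]; exact Set.mem_univ _
    exact not_both hcard hmix _ h2 (htrans _ _ hfar h1)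

end Pool.Agent.MP_9673d9_co.Sweep
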