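import Pool.Agent.MP_9673d9_co.Crystal.Line

/-!
# Non-negative combinations with few terms, and their size
-/

set_option autoImplicit false

open Finset

namespace Pool.Agent.MP_9673d9_co.Crystal

variable {V : Type*} [NormedAddCommGroup V] [NormedSpace ℝ V] [FiniteDimensional ℝ V]

/-- Caratheodory in the hyperplane `u = 1`: at most `finrank` points -/
theorem carath [DecidableEq V] (u : V →ₗ[ℝ] ℝ) (E : Finset V) (hE : ∀ e ∈ E, u e = 1) (y : V)
    (hy : y ∈ convexHull ℝ (E : Set V)) :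
    ∃ I : Finset V, I ⊆ E ∧ I.Nonempty ∧ I.card ≤ Module.finrank ℝ V ∧
      ∃ w : V → ℝ, (∀ e ∈ I, 0 ≤ w e) ∧ ∑ e ∈ I, w e • e = y := by
  rw [convexHull_eq_union] at hy
  simp only [Set.mem_iUnion, exists_prop] at hy
  obtain ⟨I, hIE, hI, hyI⟩ := hy
  have hIE' : I ⊆ E := Finset.coe_subset.1 hIE
  obtain ⟨w, hw0, hw1, hwy⟩ := Finset.mem_convexHull'.1 hyI
  refine ⟨I, hIE', ?_, ?_, w, hw0, hwy⟩
  · rw [Finset.nonempty_iff_ne_empty]
    rintro rfl
    simp at hw1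
  · refine LinearIndependent.finset_card_le_finrank (R := ℝ) ?_
    rw [linearIndependent_iff']
    intro s g hg
    rw [affineIndependent_iff] at hI
    refine hI s g ?_ hg
    have h1 := congrArg u hg
    rw [map_sum, map_zero] at h1
    rw [← h1]
    refine Finset.sum_congr rfl fun i _ => ?_
    rw [map_smul, hE _ (hIE' i.2), smul_eq_mul, mul_one]

omit [FiniteDimensional ℝ V] in
/-- the size of a combination whose opposite lies in the convex set -/
theorem size_bound [DecidableEq V] (Q : Set V) (hQ : Convex ℝ Q) (h0 : (0 : V) ∈ Q) (d : ℕ)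
    (T : ℕ) (hT : 1 ≤ T) (hTd : 2 * d - 2 ≤ T) (γ : V → ℝ) (I : Finset V) (hI : I.Nonempty)
    (hId : I.card ≤ d)
    (hγQ : ∀ e ∈ I, ((T : ℝ) * γ e) • e ∈ Q) (hγn : ∀ e ∈ I, -((2 * γ e) • e) ∉ Q)
    (c : V → ℝ) (hc : ∀ e ∈ I, 0 ≤ c e) (v : V) (hvQ : -v ∈ Q)
    (hv : v = ∑ e ∈ I, (c e * γ e) • e) :
    (∑ e ∈ I, c e) * ((T : ℝ) - 2 * ((d : ℝ) - 1)) < 2 * d * T := by
  obtain ⟨k, hk, hmax⟩ := Finset.exists_max_image I c hI
  have hT0 : (0 : ℝ) < T := by exact_mod_cast hT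
  have hd1 : 1 ≤ d := (Finset.card_pos.2 hI).trans_le hId
  have hd0 : (1 : ℝ) ≤ d := by exact_mod_cast hd1
  have hTd' : 2 * (d : ℝ) - 2 ≤ T := by
    have : 2 * d ≤ T + 2 := by omega
    have h2 : (2 : ℝ) * d ≤ T + 2 := by exact_mod_cast this
    linarith
  have hR0 : 0 ≤ ∑ e ∈ I.erase k, c e := Finset.sum_nonneg fun e he => hc e (Finset.mem_of_mem_erase he)
  have hck := hc k hk
  -- the key inequality
  have h1 : c k < 2 * (1 + (∑ e ∈ I.erase k, c e) / T) := by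
    by_contra hle
    rw [not_lt] at hle
    have hpos : 0 < 1 + (∑ e ∈ I.erase k, c e) / T := by positivity
    have h2 : (1 + (∑ e ∈ I.erase k, c e) / T)⁻¹ • (-v) +
        ∑ e ∈ I.erase k, ((1 + (∑ e ∈ I.erase k, c e) / T)⁻¹ * (c e / T)) • ((T : ℝ) * γ e) • e ∈ Q := by
      have h3 := comb_mem Q hQ h0 (insertNone (I.erase k))
        (fun o => o.elim ((1 + (∑ e ∈ I.erase k, c e) / T)⁻¹)
          (fun e => (1 + (∑ e ∈ I.erase k, c e) / T)⁻¹ * (c e / T)))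
        (fun o => o.elim (-v) (fun e => ((T : ℝ) * γ e) • e)) ?_ ?_ ?_
      · rw [Finset.sum_insertNone] at h3
        exact h3
      · intro o ho
        cases o with
        | none => exact (inv_pos.2 hpos).le
        | some e =>
          have he : e ∈ I.erase k := by simpa using ho
          exact mul_nonneg (inv_pos.2 hpos).le (div_nonneg (hc e (Finset.mem_of_mem_erase he)) hT0.le)
      · intro o ho
        cases o with
        | none => exact hvQ
        | some e =>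
          have he : e ∈ I.erase k := by simpa using ho
          exact hγQ e (Finset.mem_of_mem_erase he)
      · rw [Finset.sum_insertNone]
        change (1 + (∑ e ∈ I.erase k, c e) / T)⁻¹ +
          ∑ e ∈ I.erase k, (1 + (∑ e ∈ I.erase k, c e) / T)⁻¹ * (c e / T) ≤ 1
        rw [← Finset.mul_sum, ← Finset.sum_div]
        rw [← mul_one_add, inv_mul_cancel₀ hpos.ne']
    have h4 : (1 + (∑ e ∈ I.erase k, c e) / T)⁻¹ • (-v) +
        ∑ e ∈ I.erase k, ((1 + (∑ e ∈ I.erase k, c e) / T)⁻¹ * (c e / T)) • ((T : ℝ) * γ e) • e =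
        -(((1 + (∑ e ∈ I.erase k, c e) / T)⁻¹ * (c k * γ k)) • k) := by
      rw [hv, ← Finset.add_sum_erase I _ hk, smul_neg, smul_add, Finset.smul_sum, neg_add, add_assoc,
        smul_smul]
      rw [add_eq_left, neg_add_eq_zero]
      refine Finset.sum_congr rfl fun e _ => ?_
      rw [smul_smul, smul_smul]
      congr 1
      field_simp
    rw [h4] at h2
    have h5 : 2 ≤ (1 + (∑ e ∈ I.erase k, c e) / T)⁻¹ * c k := by
      rw [inv_mul_eq_div, le_div_iff₀ hpos]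
      exact hle
    apply hγn k hk
    have h6 := hQ.smul_mem_of_zero_mem h0 h2
      (t := 2 / ((1 + (∑ e ∈ I.erase k, c e) / T)⁻¹ * c k)) ⟨by positivity, by
        rw [div_le_one (by linarith)]
        exact h5⟩
    have h7 : (2 / ((1 + (∑ e ∈ I.erase k, c e) / T)⁻¹ * c k)) •
        (-(((1 + (∑ e ∈ I.erase k, c e) / T)⁻¹ * (c k * γ k)) • k)) = -((2 * γ k) • k) := by
      rw [smul_neg, smul_smul]
      congr 2
      rw [← mul_assoc _ (c k) (γ k), ← mul_assoc, div_mul_cancel₀ _ (by linarith)]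
    rwa [h7] at h6
  have h8 : ∑ e ∈ I.erase k, c e ≤ ((d : ℝ) - 1) * c k := by
    have h9 : ∑ e ∈ I.erase k, c e ≤ ∑ _e ∈ I.erase k, c k :=
      Finset.sum_le_sum fun e he => hmax e (Finset.mem_of_mem_erase he)
    rw [Finset.sum_const, nsmul_eq_mul, Finset.card_erase_of_mem hk] at h9
    refine h9.trans (mul_le_mul_of_nonneg_right ?_ hck)
    have : I.card - 1 + 1 ≤ d := by
      have := Finset.card_pos.2 hI
      omega
    have h10 : ((I.card - 1 : ℕ) : ℝ) + 1 ≤ d := by exact_mod_cast this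
    linarith
  have h11 : ∑ e ∈ I, c e = c k + ∑ e ∈ I.erase k, c e := (Finset.add_sum_erase I _ hk).symm
  have h12 : c k * T < 2 * T + 2 * (((d : ℝ) - 1) * c k) := by
    have h13 : c k * T < 2 * (1 + (∑ e ∈ I.erase k, c e) / T) * T :=
      mul_lt_mul_of_pos_right h1 hT0
    have h14 : 2 * (1 + (∑ e ∈ I.erase k, c e) / T) * T = 2 * T + 2 * ∑ e ∈ I.erase k, c e := by
      field_simp
    rw [h14] at h13
    linarith
  have h15 : c k * ((T : ℝ) - 2 * ((d : ℝ) - 1)) < 2 * T := by linarith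
  have h16 : (∑ e ∈ I, c e) * ((T : ℝ) - 2 * ((d : ℝ) - 1)) ≤
      (d * c k) * ((T : ℝ) - 2 * ((d : ℝ) - 1)) := by
    refine mul_le_mul_of_nonneg_right ?_ (by linarith)
    rw [h11]
    linarith
  have h17 : (d * c k) * ((T : ℝ) - 2 * ((d : ℝ) - 1)) < d * (2 * T) := by
    rw [mul_assoc]
    exact mul_lt_mul_of_pos_left h15 (by linarith)
  linarith

/-- the representation used in the proof of the theorem -/
theorem repr_small [DecidableEq V] (u : V →ₗ[ℝ] ℝ) (E : Finset V) (hE : ∀ e ∈ E, u e = 1)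
    (Q : Set V) (hQ : Convex ℝ Q) (h0 : (0 : V) ∈ Q) (d : ℕ) (hd : Module.finrank ℝ V ≤ d)
    (T : ℕ) (hT : 1 ≤ T) (hTd : 2 * d - 2 ≤ T) (γ : V → ℝ) (hγ : ∀ e ∈ E, 0 < γ e)
    (hγQ : ∀ e ∈ E, ((T : ℝ) * γ e) • e ∈ Q) (hγn : ∀ e ∈ E, -((2 * γ e) • e) ∉ Q)
    (v : V) (hv : 0 < u v) (hvE : (u v)⁻¹ • v ∈ convexHull ℝ (E : Set V)) (hvQ : -v ∈ Q) :
    ∃ I : Finset V, I ⊆ E ∧ I.card ≤ d ∧ ∃ c : V → ℝ, (∀ e ∈ I, 0 ≤ c e) ∧
      v = ∑ e ∈ I, (c e * γ e) • e ∧
      (∑ e ∈ I, c e) * ((T : ℝ) - 2 * ((d : ℝ) - 1)) < 2 * d * T := by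
  obtain ⟨I, hIE, hIn, hIc, w, hw0, hwy⟩ := carath u E hE _ hvE
  have hId : I.card ≤ d := hIc.trans hd
  have hv1 : v = ∑ e ∈ I, ((u v * w e / γ e) * γ e) • e := by
    have h1 : ∑ e ∈ I, ((u v * w e / γ e) * γ e) • e = u v • ∑ e ∈ I, w e • e := by
      rw [Finset.smul_sum]
      refine Finset.sum_congr rfl fun e he => ?_
      rw [div_mul_cancel₀ _ (hγ e (hIE he)).ne', smul_smul]
    rw [h1, hwy, smul_smul, mul_inv_cancel₀ hv.ne', one_smul]
  refine ⟨I, hIE, hId, fun e => u v * w e / γ e, fun e he => ?_, hv1, ?_⟩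
  · exact div_nonneg (mul_nonneg hv.le (hw0 e he)) (hγ e (hIE he)).le
  exact size_bound Q hQ h0 d T hT hTd γ I hIn hId (fun e he => hγQ e (hIE he))
    (fun e he => hγn e (hIE he)) (fun e => u v * w e / γ e)
    (fun e he => div_nonneg (mul_nonneg hv.le (hw0 e he)) (hγ e (hIE he)).le) v hvQ hv1

/-- the representation with coefficients on the whole set -/
theorem repr_full [DecidableEq V] (u : V →ₗ[ℝ] ℝ) (E : Finset V) (hE : ∀ e ∈ E, u e = 1)
    (Q : Set V) (hQ : Convex ℝ Q) (h0 : (0 : V) ∈ Q) (d : ℕ) (hd : Module.finrank ℝ V ≤ d)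
    (T : ℕ) (hT : 1 ≤ T) (hTd : 2 * d - 2 ≤ T) (γ : V → ℝ) (hγ : ∀ e ∈ E, 0 < γ e)
    (hγQ : ∀ e ∈ E, ((T : ℝ) * γ e) • e ∈ Q) (hγn : ∀ e ∈ E, -((2 * γ e) • e) ∉ Q)
    (v : V) (hv : 0 < u v) (hvE : (u v)⁻¹ • v ∈ convexHull ℝ (E : Set V)) (hvQ : -v ∈ Q) :
    ∃ c : V → ℝ, (∀ e ∈ E, 0 ≤ c e) ∧ (E.filter fun e => c e ≠ 0).card ≤ d ∧
      v = ∑ e ∈ E, (c e * γ e) • e ∧
      (∑ e ∈ E, c e) * ((T : ℝ) - 2 * ((d : ℝ) - 1)) < 2 * d * T := by
  obtain ⟨I, hIE, hId, c, hc, hvc, hs⟩ :=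
    repr_small u E hE Q hQ h0 d hd T hT hTd γ hγ hγQ hγn v hv hvE hvQ
  have hsum : ∀ g : V → V, ∑ e ∈ E, (if e ∈ I then g e else 0) = ∑ e ∈ I, g e := by
    intro g
    rw [← Finset.sum_filter, Finset.filter_mem_eq_inter, Finset.inter_eq_right.2 hIE]
  have hsum2 : ∀ g : V → ℝ, ∑ e ∈ E, (if e ∈ I then g e else 0) = ∑ e ∈ I, g e := by
    intro g
    rw [← Finset.sum_filter, Finset.filter_mem_eq_inter, Finset.inter_eq_right.2 hIE]
  refine ⟨fun e => if e ∈ I then c e else 0, fun e _ => ?_, ?_, ?_, ?_⟩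
  · dsimp only
    split_ifs with h
    · exact hc e h
    · exact le_rfl
  · refine (Finset.card_le_card fun e he => ?_).trans hId
    rw [Finset.mem_filter] at he
    by_contra h
    exact he.2 (if_neg h)
  · rw [hvc, ← hsum]
    refine Finset.sum_congr rfl fun e _ => ?_
    dsimp only
    split_ifs with h
    · rfl
    · rw [zero_mul, zero_smul]
  · dsimp only
    rw [hsum2]
    exact hs

end Pool.Agent.MP_9673d9_co.Crystal
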