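import Pool.Agent.MP_9673d9_co.Crystal.Line

/-!
# The sweep argument

Exposed directions at the median point and their types; the type of the median block is constant along
a generic pencil of functionals unless some median point has exposed directions of both types.
-/

set_option autoImplicit false

open Finset

namespace Pool.Agent.MP_9673d9_co.Sweep

variable {V : Type*} [NormedAddCommGroup V] [NormedSpace ℝ V]

open Classical in
/-- number of points of `S` on the open ray from `x` in the direction `e` -/
noncomputable def ray (S : Finset V) (x e : V) : ℕ :=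
  (S.filter fun y => ∃ t : ℝ, 0 < t ∧ y = x + t • e).card

/-- `e` is an exposed direction of the double cone of `S` at `x` (for the functional `u`) -/
def Exposed (S : Finset V) (x : V) (u : V →ₗ[ℝ] ℝ) (e : V) : Prop :=
  0 < u e ∧ ∃ φ : V →ₗ[ℝ] ℝ, φ e = 0 ∧
    ∀ y ∈ S, (∃ t : ℝ, y = x + t • e) ∨ 0 < φ (y - x) * u (y - x)

/-- `x` is the strict median point of `S` for the functional `u` -/
def Med (S : Finset V) (m : ℕ) (x : V) (u : V →ₗ[ℝ] ℝ) : Prop :=
  x ∈ S ∧ (∀ y ∈ S, y ≠ x → u y ≠ u x) ∧ (S.filter fun y => u y < u x).card = m ∧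
    (S.filter fun y => u x < u y).card = m

/-- no hyperplane through two points has imbalance at most `C` -/
def Unbal (S : Finset V) (C : ℕ) : Prop :=
  ∀ φ : V →ₗ[ℝ] ℝ, φ ≠ 0 → ∀ p ∈ S, ∀ q ∈ S, p ≠ q → φ p = φ q →
    C + (S.filter fun y => φ y < φ p).card < (S.filter fun y => φ p < φ y).card ∨
    C + (S.filter fun y => φ p < φ y).card < (S.filter fun y => φ y < φ p).card

/-- positive type -/
def TypeP (S : Finset V) (C : ℕ) (x : V) (u : V →ₗ[ℝ] ℝ) : Prop :=
  ∃ e, Exposed S x u e ∧ C + ray S x (-e) < ray S x e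

/-- negative type -/
def TypeN (S : Finset V) (C : ℕ) (x : V) (u : V →ₗ[ℝ] ℝ) : Prop :=
  ∃ e, Exposed S x u e ∧ C + ray S x e < ray S x (-e)

theorem exists_of_ray_pos {S : Finset V} {x e : V} (h : 0 < ray S x e) :
    ∃ t : ℝ, 0 < t ∧ x + t • e ∈ S := by
  classical
  obtain ⟨y, hy⟩ := Finset.card_pos.1 h
  obtain ⟨h1, t, ht, rfl⟩ := Finset.mem_filter.1 hy
  exact ⟨t, ht, h1⟩

/-- sets of points on opposite sides -/
theorem exposed_counts {S : Finset V} {m : ℕ} {x : V} {u : V →ₗ[ℝ] ℝ} (hM : Med S m x u) {e : V}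
    (hu : 0 < u e) (φ : V →ₗ[ℝ] ℝ) (hφe : φ e = 0)
    (hφ : ∀ y ∈ S, (∃ t : ℝ, y = x + t • e) ∨ 0 < φ (y - x) * u (y - x)) :
    (S.filter fun y => φ x < φ y).card + ray S x e = m ∧
      (S.filter fun y => φ y < φ x).card + ray S x (-e) = m := by
  classical
  obtain ⟨hx, halone, hlow, hup⟩ := hM
  have hline : ∀ t : ℝ, φ (x + t • e) = φ x := by
    intro t
    rw [map_add, map_smul, hφe, smul_zero, add_zero]
  have huline : ∀ t : ℝ, u (x + t • e) = u x + t * u e := by
    intro t
    rw [map_add, map_smul, smul_eq_mul]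
  constructor
  · rw [← hup, ray, ← Finset.card_union_of_disjoint]
    · congr 1
      ext y
      rw [Finset.mem_union, Finset.mem_filter, Finset.mem_filter, Finset.mem_filter]
      constructor
      · rintro (⟨hy, h⟩ | ⟨hy, t, ht, rfl⟩)
        · refine ⟨hy, ?_⟩
          rcases hφ y hy with ⟨t, rfl⟩ | h1
          · rw [hline] at h
            exact absurd h (lt_irrefl _)
          · have h2 : 0 < φ (y - x) := by rw [map_sub]; linarith
            have h3 := pos_of_mul_pos_right h1 h2.le
            rw [map_sub] at h3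
            linarith
        · refine ⟨hy, ?_⟩
          rw [huline]
          have := mul_pos ht hu
          linarith
      · rintro ⟨hy, h⟩
        rcases hφ y hy with ⟨t, rfl⟩ | h1
        · right
          refine ⟨hy, t, ?_, rfl⟩
          rw [huline] at h
          have h2 : 0 < t * u e := by linarith
          exact pos_of_mul_pos_left h2 hu.le
        · left
          refine ⟨hy, ?_⟩
          have h2 : 0 < u (y - x) := by rw [map_sub]; linarith
          have h3 := pos_of_mul_pos_left h1 h2.le
          rw [map_sub] at h3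
          linarith
    · rw [Finset.disjoint_left]
      intro y hy hy'
      obtain ⟨-, h⟩ := Finset.mem_filter.1 hy
      obtain ⟨-, t, -, rfl⟩ := Finset.mem_filter.1 hy'
      rw [hline] at h
      exact lt_irrefl _ h
  · rw [← hlow, ray, ← Finset.card_union_of_disjoint]
    · congr 1
      ext y
      rw [Finset.mem_union, Finset.mem_filter, Finset.mem_filter, Finset.mem_filter]
      constructor
      · rintro (⟨hy, h⟩ | ⟨hy, t, ht, rfl⟩)
        · refine ⟨hy, ?_⟩
          rcases hφ y hy with ⟨t, rfl⟩ | h1
          · rw [hline] at h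
            exact absurd h (lt_irrefl _)
          · have h2 : 0 < -φ (y - x) := by rw [map_sub]; linarith
            have h3 : 0 < (-φ (y - x)) * (-u (y - x)) := by rw [neg_mul_neg]; exact h1
            have h4 := pos_of_mul_pos_right h3 h2.le
            rw [map_sub] at h4
            linarith
        · refine ⟨hy, ?_⟩
          rw [smul_neg, ← neg_smul, huline]
          have := mul_pos ht hu
          linarith
      · rintro ⟨hy, h⟩
        rcases hφ y hy with ⟨t, rfl⟩ | h1
        · right
          refine ⟨hy, -t, ?_, by rw [smul_neg, neg_smul, neg_neg]⟩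
          rw [huline] at h
          have h2 : 0 < (-t) * u e := by linarith
          exact pos_of_mul_pos_left h2 hu.le
        · left
          refine ⟨hy, ?_⟩
          have h2 : 0 < -u (y - x) := by rw [map_sub]; linarith
          have h3 : 0 < (-φ (y - x)) * (-u (y - x)) := by rw [neg_mul_neg]; exact h1
          have h4 := pos_of_mul_pos_left h3 h2.le
          rw [map_sub] at h4
          linarith
    · rw [Finset.disjoint_left]
      intro y hy hy'
      obtain ⟨-, h⟩ := Finset.mem_filter.1 hy
      obtain ⟨-, t, -, rfl⟩ := Finset.mem_filter.1 hy'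
      rw [smul_neg, ← neg_smul, hline] at h
      exact lt_irrefl _ h

/-- an exposed direction with a point of `S` has one of the two types -/
theorem exposed_type {S : Finset V} {m C : ℕ} {x : V} {u : V →ₗ[ℝ] ℝ} (hM : Med S m x u)
    (hS : Unbal S C) (hcol : ∀ e : V, ∃ y ∈ S, ∀ t : ℝ, y ≠ x + t • e) {e : V}
    (he : Exposed S x u e) (hpt : ∃ y ∈ S, y ≠ x ∧ ∃ t : ℝ, y = x + t • e) :
    C + ray S x (-e) < ray S x e ∨ C + ray S x e < ray S x (-e) := by
  obtain ⟨hu, φ, hφe, hφ⟩ := he
  obtain ⟨h1, h2⟩ := exposed_counts hM hu φ hφe hφ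
  obtain ⟨z, hz, hzl⟩ := hcol e
  have hφ0 : φ ≠ 0 := by
    intro h
    rcases hφ z hz with ⟨t, ht⟩ | h3
    · exact hzl t ht
    · rw [h] at h3
      simp at h3
  obtain ⟨y, hy, hyx, t, rfl⟩ := hpt
  have h3 := hS φ hφ0 x hM.1 _ hy (Ne.symm hyx) (by rw [map_add, map_smul, hφe, smul_zero, add_zero])
  omega

end Pool.Agent.MP_9673d9_co.Sweep
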