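import Pool.Agent.MP_9673d9_co.Crystal.Sweep

/-!
# Exposed directions exist
-/

set_option autoImplicit false

open Finset

namespace Pool.Agent.MP_9673d9_co.Sweep

open Pool.Agent.MP_9673d9_co.Crystal

variable {V : Type*} [NormedAddCommGroup V] [NormedSpace ℝ V]

/-- the exposed directions generate the double cone -/
theorem exposed_vertices (S : Finset V) (x : V) (u : V →ₗ[ℝ] ℝ)
    (halone : ∀ y ∈ S, y ≠ x → u y ≠ u x) :
    ∃ E : Finset V, (∀ e ∈ E, u e = 1 ∧ Exposed S x u e ∧ ∃ y ∈ S, y ≠ x ∧ ∃ t : ℝ, y = x + t • e) ∧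
      ∀ y ∈ S, y ≠ x → (u (y - x))⁻¹ • (y - x) ∈ convexHull ℝ (E : Set V) := by
  classical
  let W : Finset V := (S.erase x).image fun y => (u (y - x))⁻¹ • (y - x)
  have hne : ∀ y ∈ S, y ≠ x → u (y - x) ≠ 0 := by
    intro y hy hyx h
    rw [map_sub] at h
    exact halone y hy hyx (by linarith)
  have huW : ∀ w ∈ W, u w = 1 := by
    intro w hw
    obtain ⟨y, hy, rfl⟩ := Finset.mem_image.1 hw
    obtain ⟨hyx, hyS⟩ := Finset.mem_erase.1 hy
    rw [map_smul, smul_eq_mul, inv_mul_cancel₀ (hne y hyS hyx)]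
  obtain ⟨E, hEW, hWE, hEmin⟩ := exists_vertices W
  have hhull : ∀ y ∈ S, y ≠ x → (u (y - x))⁻¹ • (y - x) ∈ convexHull ℝ (E : Set V) :=
    fun y hy hyx => hWE (Finset.mem_coe.2 (Finset.mem_image.2 ⟨y, Finset.mem_erase.2 ⟨hyx, hy⟩, rfl⟩))
  have hE1 : ∀ e ∈ E, u e = 1 := fun e he => huW e (hEW he)
  refine ⟨E, fun e he => ⟨hE1 e he, ⟨by rw [hE1 e he]; exact one_pos, ?_⟩, ?_⟩, hhull⟩
  · obtain ⟨φ, hφe, hφ⟩ := exposing u E hE1 e he (hEmin e he)
    refine ⟨φ, hφe, fun y hy => ?_⟩
    by_cases hyx : y = x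
    · left
      exact ⟨0, by rw [zero_smul, add_zero]; exact hyx⟩
    · have h1 := hull_pos φ E e he hφe hφ _ (hhull y hy hyx)
      have h2 := hne y hy hyx
      rcases eq_or_lt_of_le h1.1 with h | h
      · left
        refine ⟨u (y - x), ?_⟩
        rw [← h1.2 h.symm, smul_smul, mul_inv_cancel₀ h2, one_smul, add_sub_cancel]
      · right
        rw [map_smul, smul_eq_mul] at h
        have h3 : φ (y - x) * u (y - x) = ((u (y - x))⁻¹ * φ (y - x)) * (u (y - x)) ^ 2 := by
          field_simp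
        rw [h3]
        exact mul_pos h (by positivity)
  · obtain ⟨y, hy, hye⟩ := Finset.mem_image.1 (hEW he)
    obtain ⟨hyx, hyS⟩ := Finset.mem_erase.1 hy
    refine ⟨y, hyS, hyx, u (y - x), ?_⟩
    rw [← hye, smul_smul, mul_inv_cancel₀ (hne y hyS hyx), one_smul, add_sub_cancel]

/-- every strict median point has one of the types -/
theorem exists_type {S : Finset V} {m C : ℕ} (hm : 1 ≤ m) {x : V} {u : V →ₗ[ℝ] ℝ}
    (hM : Med S m x u) (hS : Unbal S C) (hcol : ∀ e : V, ∃ y ∈ S, ∀ t : ℝ, y ≠ x + t • e) :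
    TypeP S C x u ∨ TypeN S C x u := by
  classical
  obtain ⟨E, hE, hhull⟩ := exposed_vertices S x u hM.2.1
  obtain ⟨y, hy⟩ := Finset.card_pos.1 (by rw [hM.2.2.2]; omega : 0 < (S.filter fun y => u x < u y).card)
  obtain ⟨hyS, hyx⟩ := Finset.mem_filter.1 hy
  have hyne : y ≠ x := by
    rintro rfl
    exact lt_irrefl _ hyx
  have hEn : E.Nonempty := by
    rw [Finset.nonempty_iff_ne_empty]
    rintro rfl
    have := hhull y hyS hyne
    simp at this
  obtain ⟨e, he⟩ := hEn
  obtain ⟨-, h1, h2⟩ := hE e he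
  rcases exposed_type hM hS hcol h1 h2 with h | h
  · exact Or.inl ⟨e, h1, h⟩
  · exact Or.inr ⟨e, h1, h⟩

/-- weak medians of a function on an odd set -/
theorem exists_weak_median {α : Type*} (S : Finset α) (f : α → ℝ) (m : ℕ)
    (hcard : S.card = 2 * m + 1) :
    ∃ x ∈ S, (S.filter fun y => f y < f x).card ≤ m ∧ (S.filter fun y => f x < f y).card ≤ m := by
  classical
  let G := S.filter fun x => m + 1 ≤ (S.filter fun y => f y ≤ f x).card
  have hG : G.Nonempty := by
    obtain ⟨z, hz, hmax⟩ := Finset.exists_max_image S f (Finset.card_pos.1 (by omega))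
    refine ⟨z, Finset.mem_filter.2 ⟨hz, ?_⟩⟩
    rw [Finset.filter_true_of_mem hmax]
    omega
  obtain ⟨x, hx, hmin⟩ := Finset.exists_min_image G f hG
  obtain ⟨hxS, hx2⟩ := Finset.mem_filter.1 hx
  have h1 := Finset.card_filter_add_card_filter_not (s := S) (fun y => f y ≤ f x)
  have h2 : (S.filter fun y => ¬ f y ≤ f x) = S.filter fun y => f x < f y :=
    Finset.filter_congr fun y _ => not_le
  rw [h2] at h1
  refine ⟨x, hxS, ?_, by omega⟩
  by_contra hlt
  rw [not_le] at hlt
  obtain ⟨z, hz, hmax⟩ := Finset.exists_max_image (S.filter fun y => f y < f x) f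
    (Finset.card_pos.1 (by omega))
  obtain ⟨hzS, hzx⟩ := Finset.mem_filter.1 hz
  have hzG : z ∈ G := by
    refine Finset.mem_filter.2 ⟨hzS, ?_⟩
    refine le_trans hlt (Finset.card_le_card fun y hy => ?_)
    exact Finset.mem_filter.2 ⟨(Finset.mem_filter.1 hy).1, hmax y hy⟩
  exact absurd (hmin z hzG) (not_le.2 hzx)

/-- two weak medians have the same value -/
theorem weak_median_unique {α : Type*} (S : Finset α) (f : α → ℝ) (m : ℕ)
    (hcard : S.card = 2 * m + 1) (x x' : α)
    (hx : (S.filter fun y => f y < f x).card ≤ m ∧ (S.filter fun y => f x < f y).card ≤ m)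
    (hx' : (S.filter fun y => f y < f x').card ≤ m ∧ (S.filter fun y => f x' < f y).card ≤ m) :
    f x = f x' := by
  classical
  have key : ∀ a b : α, (S.filter fun y => f y < f b).card ≤ m →
      (S.filter fun y => f a < f y).card ≤ m → ¬ f a < f b := by
    intro a b h1 h2 hab
    have h3 : S ⊆ (S.filter fun y => f y < f b) ∪ S.filter fun y => f a < f y := by
      intro y hy
      rcases lt_or_ge (f y) (f b) with h | h
      · exact Finset.mem_union_left _ (Finset.mem_filter.2 ⟨hy, h⟩)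
      · exact Finset.mem_union_right _ (Finset.mem_filter.2 ⟨hy, hab.trans_le h⟩)
    have h4 := (Finset.card_le_card h3).trans (Finset.card_union_le _ _)
    omega
  exact le_antisymm (not_lt.1 (key x' x hx.1 hx'.2)) (not_lt.1 (key x x' hx'.1 hx.2))

end Pool.Agent.MP_9673d9_co.Sweep
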